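import Pool.Agent.Lib.MP_5c318e_ag.RD.RDefs

/-! The Bergman kernel function of a weighted Riemann domain: definitions. -/

set_option autoImplicit false

namespace Pool.Agent.Lib.MP_5c318e_ag

open MeasureTheory

noncomputable section

namespace RD

variable {ι : Type} [Fintype ι] {S : Type} [TopologicalSpace S] [MeasurableSpace S] (D : RD ι S)

/-- the square of the weighted `L²` norm -/
def n2 (φ : S → ℝ) (u : S → ℂ) : ENNReal :=
  ∫⁻ x, ENNReal.ofReal (‖u x‖ ^ 2 * Real.exp (-φ x)) ∂D.μ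

/-- the Bergman kernel function -/
def Bg (φ : S → ℝ) (x : S) : ℝ := sSup {t | ∃ u, D.Hol u ∧ D.n2 φ u ≤ 1 ∧ t = ‖u x‖ ^ 2}

/-- the complex derivative in the chart at `x` -/
def dh (u : S → ℂ) (x : S) (ξ : ι → ℂ) : ℂ := fderiv ℂ (fun z => u (D.sec x z)) (D.π x) ξ

/-- holomorphic at a point -/
def HolAt (u : S → ℂ) (x : S) : Prop := DifferentiableAt ℂ (fun z => u (D.sec x z)) (D.π x)

/-- the `L²` estimate of Hoermander holds on `D` -/
def Horm : Prop := ∀ (φ : S → ℝ) (f : S → ℂ) (h : S → ℝ), D.Psh φ → D.Sm f → Measurable h →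
  (∀ x, 0 ≤ h x) → (∀ x ξ, ‖D.dbar f x ξ‖ ^ 2 ≤ h x * D.levi φ x ξ) →
  ∃ F : S → ℂ, D.Hol F ∧ ∫⁻ x, ENNReal.ofReal (‖F x - f x‖ ^ 2 * Real.exp (-φ x)) ∂D.μ ≤
    ∫⁻ x, ENNReal.ofReal (h x * Real.exp (-φ x)) ∂D.μ

end RD

end

end Pool.Agent.Lib.MP_5c318e_ag
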