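import Pool.Agent.Lib.MP_5c318e_ag.Bg.Sub

/-! Growth of power sums along a punctured polydisc. -/

set_option autoImplicit false
set_option linter.unusedSectionVars false

namespace Pool.Agent.Lib.MP_5c318e_ag.Bg

open MeasureTheory Metric Filter Topology Set Function
open Pool.Agent.Lib.MP_9ff3e7_ag

variable {ι : Type} [Fintype ι] [DecidableEq ι] {S1 S : Type} {p : S1 → S} {u : S1 → ℂ}

theorem norm_psum_le {y : S} {M : ℝ} (hM : 0 ≤ M) (h : esum p u y ≤ ENNReal.ofReal M) {j : ℕ}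
    (hj : 2 ≤ j) : ‖psum p u j y‖ ≤ √M ^ j := by
  have f := (h.trans_lt ENNReal.ofReal_lt_top).ne
  refine (norm_tsum_pow (ENNReal.summable_toReal f)
    (fun x => (ENNReal.toReal_ofReal (sq_nonneg _)).ge) hj).trans
      (pow_le_pow_left₀ (Real.sqrt_nonneg _) (Real.sqrt_le_sqrt ?_) _)
  rw [← ENNReal.tsum_toReal_eq fun _ => ENNReal.ofReal_ne_top]
  exact ENNReal.toReal_le_of_le_ofReal hM h

variable [TopologicalSpace S1] [TopologicalSpace S] [MeasurableSpace S1] [MeasurableSpace S]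
  {D1 : RD ι S1} {D : RD ι S}

/-- the mean value inequality for fibre sums with a holomorphic multiplier -/
theorem submean_mul [SigmaCompactSpace S1] [T1Space S] (hp : IsCoveringMap p)
    (hπ : ∀ x, D.π (p x) = D1.π x) (hu : D1.Hol u) {κ : Type} [Fintype κ]
    {τ : (κ → ℂ) → S} {a : κ → ℂ} {r : ℝ} (r0 : 0 < r) (hc : ContinuousOn τ (ball a r))
    (hd : DifferentiableOn ℂ (fun z => D.π (τ z)) (ball a r)) {m : (κ → ℂ) → ℂ}
    (hm : DifferentiableOn ℂ m (ball a r)) :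
    esum p u (τ a) * ENNReal.ofReal (‖m a‖ ^ 2 * (Real.pi * r ^ 2) ^ Fintype.card κ) ≤
      ∫⁻ z in ball a r, ENNReal.ofReal (‖m z‖ ^ 2) * esum p u (τ z) := by
  have := fib_countable hp (τ a)
  obtain ⟨σ, s1, s2, s3, s4⟩ := exists_lifts hp r0 hc
  have d : ∀ k, DifferentiableOn ℂ (fun z => m z * u (σ k z)) (ball a r) := fun k =>
    hm.mul fun z hz => (hol_map hu ((s2 k).continuousAt (isOpen_ball.mem_nhds hz))
      ((hd.congr fun y hy => by rw [← hπ, s3 k y hy]).differentiableAt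
        (isOpen_ball.mem_nhds hz))).differentiableWithinAt
  calc _ ≤ ∑' k, ∫⁻ z in ball a r, ENNReal.ofReal (‖m z * u (σ k z)‖ ^ 2) := by
        rw [esum, ← ENNReal.tsum_mul_right]
        refine ENNReal.tsum_le_tsum fun k => ?_
        have := F.submean_pi r0 (d k)
        rwa [s1, norm_mul, mul_pow, mul_comm (‖m a‖ ^ 2), mul_assoc,
          ENNReal.ofReal_mul (sq_nonneg _)] at this
    _ = ∫⁻ z in ball a r, ∑' k, ENNReal.ofReal (‖m z * u (σ k z)‖ ^ 2) :=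
        (lintegral_tsum fun k => (((d k).continuousOn.norm.pow 2).aemeasurable
          measurableSet_ball).ennreal_ofReal).symm
    _ ≤ _ := setLIntegral_mono' measurableSet_ball fun z hz => by
        simp only [norm_mul, mul_pow, ENNReal.ofReal_mul (sq_nonneg _), ENNReal.tsum_mul_left]
        exact mul_le_mul_right (ENNReal.tsum_comp_le_tsum_of_injective
          (f := fun k => (⟨σ k z, s3 k z hz⟩ : p ⁻¹' {τ z}))
          (fun k l e => s4 z hz (congrArg Subtype.val e)) fun x => ENNReal.ofReal (‖u x‖ ^ 2)) _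

variable {κ : Type} [Fintype κ] [DecidableEq κ] {i0 : κ} {a : κ → ℂ} {r : ℝ} {H : (κ → ℂ) → S}
  {n : ℤ}

theorem diff_zpow {W : Set (κ → ℂ)} (hW : ∀ y ∈ W, y i0 ≠ 0) (n : ℤ) :
    DifferentiableOn ℂ (fun y : κ → ℂ => y i0 ^ n) W := fun y hy =>
  (DifferentiableAt.comp (g := fun t : ℂ => t ^ n) (f := fun y : κ → ℂ => y i0) y
    (differentiableAt_zpow.2 (Or.inl (hW y hy))) (differentiableAt_apply i0 y)).differentiableWithinAt

/-- the crude bound, valid at every divisor -/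
theorem horn_all [SigmaCompactSpace S1] [T1Space S] (hp : IsCoveringMap p)
    (hπ : ∀ x, D.π (p x) = D1.π x) (hu : D1.Hol u) (ha : a i0 = 0)
    (hc : ContinuousOn H (ball a r ∩ {y | y i0 ≠ 0}))
    (hd : DifferentiableOn ℂ (fun y => D.π (H y)) (ball a r ∩ {y | y i0 ≠ 0}))
    (hi : ∫⁻ y in ball a r ∩ {y | y i0 ≠ 0}, ENNReal.ofReal (‖y i0 ^ n‖ ^ 2) * esum p u (H y) < ⊤)
    {j : ℕ} (hj : 2 ≤ j) : ∃ C : ℝ, ∀ y ∈ ball a (r / 2) ∩ {y | y i0 ≠ 0},
      ‖psum p u j (H y)‖ ≤ C * ‖y i0‖ ^ (-((n + Fintype.card κ) * j)) := by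
  set J := (∫⁻ y in ball a r ∩ {y | y i0 ≠ 0},
    ENNReal.ofReal (‖y i0 ^ n‖ ^ 2) * esum p u (H y)).toReal
  have J0 : 0 ≤ J := ENNReal.toReal_nonneg
  refine ⟨√(J / Real.pi ^ Fintype.card κ) ^ j, fun y hy => ?_⟩
  have r2 := pos_of_mem_ball hy.1
  have y0 : 0 < ‖y i0‖ := norm_pos_iff.2 hy.2
  have y1 : ‖y i0‖ < r / 2 := by
    have := (dist_pi_lt_iff r2).1 hy.1 i0
    rwa [ha, dist_zero_right] at this
  have s : ball y ‖y i0‖ ⊆ ball a r ∩ {y | y i0 ≠ 0} := fun z hz =>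
    ⟨ball_subset_ball' (by linarith [mem_ball.1 hy.1]) hz, fun h => by
      have := (dist_pi_lt_iff y0).1 hz i0
      rw [h, dist_zero_left] at this
      exact lt_irrefl _ this⟩
  have h := ((submean_mul hp hπ hu y0 (hc.mono s) (hd.mono s)
    (diff_zpow (fun z hz => (s hz).2) n)).trans (lintegral_mono_set s)).trans_eq
    (ENNReal.ofReal_toReal hi.ne).symm
  have c0 : 0 < ‖y i0 ^ n‖ ^ 2 * (Real.pi * ‖y i0‖ ^ 2) ^ Fintype.card κ := by
    rw [norm_zpow]; positivity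
  rw [← ENNReal.le_div_iff_mul_le (Or.inl (by simpa using c0)) (Or.inl ENNReal.ofReal_ne_top),
    ← ENNReal.ofReal_div_of_pos c0] at h
  refine (norm_psum_le (by positivity) h hj).trans_eq ?_
  rw [← neg_mul, zpow_mul, zpow_natCast, ← mul_pow]
  congr 1
  rw [← Real.sqrt_sq (x := ‖y i0‖ ^ (-(n + Fintype.card κ))) (by positivity),
    ← Real.sqrt_mul (by positivity), norm_zpow, zpow_neg, zpow_add₀ y0.ne', zpow_natCast, mul_pow,
    ← pow_mul, mul_comm 2, pow_mul]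
  congr 1
  field_simp
  rfl

/-- the sharp bound when the branches are single valued -/
theorem horn_good (hπ : ∀ x, D.π (p x) = D1.π x) (hu : D1.Hol u) (ha : a i0 = 0)
    (hd : DifferentiableOn ℂ (fun y => D.π (H y)) (ball a r ∩ {y | y i0 ≠ 0}))
    (hi : ∫⁻ y in ball a r ∩ {y | y i0 ≠ 0}, ENNReal.ofReal (‖y i0 ^ n‖ ^ 2) * esum p u (H y) < ⊤)
    {Γ : Type} [Countable Γ] {σ : Γ → (κ → ℂ) → S1}
    (hc : ∀ γ, ContinuousOn (σ γ) (ball a r ∩ {y | y i0 ≠ 0}))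
    (hσ : ∀ y ∈ ball a r ∩ {y | y i0 ≠ 0}, Lists p (σ · y) (H y))
    {j : ℕ} (hj : 2 ≤ j) : ∃ C : ℝ, ∀ y ∈ ball a (r / 2) ∩ {y | y i0 ≠ 0},
      ‖psum p u j (H y)‖ ≤ C * ‖y i0‖ ^ (-(n * j)) := by
  have O := isOpen_punct i0 a r
  obtain ⟨I, I1, I2⟩ := punct_fam ha (f := fun γ y => y i0 ^ n * u (σ γ y))
    (fun γ => (diff_zpow (fun _ hz => hz.2) n).mul fun z hz => (hol_map hu
      ((hc γ).continuousAt (O.mem_nhds hz)) ((hd.congr fun y hy => by
        rw [← hπ, (hσ y hy).map γ]).differentiableAt (O.mem_nhds hz))).differentiableWithinAt)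
    (lt_of_eq_of_lt (setLIntegral_congr_fun O.measurableSet fun y hy => by
      simp only [norm_mul, mul_pow, ENNReal.ofReal_mul (sq_nonneg _), ENNReal.tsum_mul_left, esum,
        (hσ y hy).tsum fun x => ENNReal.ofReal (‖u x‖ ^ 2)]) hi)
  refine ⟨√(∑' k, I k) ^ j, fun y hy => ?_⟩
  have r2 := pos_of_mem_ball hy.1
  have y0 : 0 < ‖y i0‖ := norm_pos_iff.2 hy.2
  have h := norm_tsum_pow I1 (fun γ => I2 γ y hy) hj
  simp only [mul_pow, tsum_mul_left] at h
  rw [← (hσ y ⟨ball_subset_ball (by linarith) hy.1, hy.2⟩).tsum fun x => u x ^ j, norm_mul,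
    norm_pow, norm_zpow, ← zpow_natCast, ← zpow_mul] at h
  rw [zpow_neg, ← div_eq_mul_inv, le_div_iff₀' (by positivity)]
  exact h

end Pool.Agent.Lib.MP_5c318e_ag.Bg
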