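import Pool.Agent.Lib.MP_9ff3e7_ag.F.CauchyEst

/-! Uniform limits of holomorphic functions of several variables; weakly holomorphic families of
functionals. -/

set_option autoImplicit false

namespace Pool.Agent.Lib.MP_5c318e_ag.Bg

open Complex MeasureTheory Metric Filter Topology Set
open Pool.Agent.Lib.MP_9ff3e7_ag.F

noncomputable section

variable {ι : Type} [Fintype ι]

/-- the coordinates of the torus -/
def co (j : ι) : C(ι → Osg.Tc, ℂ) := (fourier 1).comp ⟨fun θ => θ j, continuous_apply j⟩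

/-- the Cauchy kernel -/
def ker (z : ι → ℂ) : C(ι → Osg.Tc, ℂ) := ∏ j, co j * Ring.inverse (co j - z j • 1)

theorem co_unit {z : ι → ℂ} (hz : z ∈ ball (0 : ι → ℂ) 1) (j : ι) : IsUnit (co j - z j • 1) :=
  (ContinuousMap.isUnit_iff_forall_ne_zero _).2 fun θ e => by
    have := (norm_le_pi_norm z j).trans_lt (mem_ball_zero_iff.1 hz)
    have e' : fourier 1 (θ j) - z j = 0 := by simpa [co] using e
    rw [← sub_eq_zero.1 e', Osg.nrm] at this
    exact lt_irrefl _ this

theorem ker_ana : AnalyticAt ℂ (ker : (ι → ℂ) → C(ι → Osg.Tc, ℂ)) 0 := by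
  refine Finset.analyticAt_fun_prod _ fun j _ => analyticAt_const.mul ?_
  refine AnalyticAt.comp (g := Ring.inverse) (f := fun z : ι → ℂ => co j - z j • 1)
    (analyticAt_inverse (co_unit (mem_ball_self one_pos) j).unit) (analyticAt_const.sub ?_)
  exact ((ContinuousLinearMap.proj (R := ℂ) (φ := fun _ : ι => ℂ) j).analyticAt 0).smul
    analyticAt_const

theorem tor_mem (θ : ι → Osg.Tc) : (fun j => fourier 1 (θ j)) ∈ closedBall (0 : ι → ℂ) 1 :=
  mem_closedBall_zero_iff.2 ((pi_norm_le_iff_of_nonneg zero_le_one).2 fun _ => (Osg.nrm _).le)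

/-- restriction to the torus -/
def tor {G : (ι → ℂ) → ℂ} (hG : ContinuousOn G (closedBall 0 1)) : C(ι → Osg.Tc, ℂ) :=
  ⟨fun θ => G fun j => fourier 1 (θ j), hG.comp_continuous (by fun_prop) tor_mem⟩

theorem lam_ker {G : (ι → ℂ) → ℂ} (hG : DifferentiableOn ℂ G (closedBall 0 1)) {z : ι → ℂ}
    (hz : z ∈ ball (0 : ι → ℂ) 1) : Osg.lam ι (ker z * tor hG.continuousOn) = G z := by
  classical
  rw [← Osg.cauchy hG hz Finset.univ]
  refine integral_congr_ae (.of_forall fun θ => ?_)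
  simp only [ker, ContinuousMap.mul_apply, ContinuousMap.prod_apply, Finset.piecewise_univ]
  rw [mul_comm]
  congr 1
  refine Finset.prod_congr rfl fun j _ => ?_
  have := congrArg (fun g : C(ι → Osg.Tc, ℂ) => g θ) (Ring.mul_inverse_cancel _ (co_unit hz j))
  rw [div_eq_mul_inv]
  congr 1
  exact eq_inv_of_mul_eq_one_right (by simpa [co] using this)

theorem ana_approx0 {F : (ι → ℂ) → ℂ} (h : ∀ ε > 0, ∃ G : (ι → ℂ) → ℂ,
    DifferentiableOn ℂ G (closedBall 0 1) ∧ ∀ w ∈ closedBall (0 : ι → ℂ) 1, ‖G w - F w‖ ≤ ε) :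
    AnalyticAt ℂ F 0 := by
  have hc : ContinuousOn F (closedBall 0 1) := by
    refine continuousOn_of_uniform_approx_of_continuousOn fun u hu => ?_
    obtain ⟨ε, e0, he⟩ := mem_uniformity_dist.1 hu
    obtain ⟨G, h1, h2⟩ := h (ε / 2) (half_pos e0)
    refine ⟨G, h1.continuousOn, fun y hy => he ?_⟩
    rw [dist_comm, dist_eq_norm]
    linarith [h2 y hy]
  have a : AnalyticAt ℂ (fun z : ι → ℂ => Osg.lam ι (ker z * tor hc)) 0 :=
    ((Osg.lam ι).analyticAt _).comp (ker_ana.mul analyticAt_const)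
  refine a.congr ?_
  filter_upwards [ball_mem_nhds 0 one_pos] with z hz
  rw [← sub_eq_zero, ← norm_le_zero_iff]
  refine le_of_forall_pos_le_add fun ε e0 => ?_
  set A := ‖Osg.lam ι‖ * ‖ker z‖ + 1 with hA
  have A0 : 0 < A := by positivity
  obtain ⟨G, h1, h2⟩ := h (ε / A) (div_pos e0 A0)
  have e : Osg.lam ι (ker z * tor hc) - F z =
      Osg.lam ι (ker z * (tor hc - tor h1.continuousOn)) + (G z - F z) := by
    rw [mul_sub, map_sub, lam_ker h1 hz]
    ring
  have b : ‖tor hc - tor h1.continuousOn‖ ≤ ε / A :=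
    (ContinuousMap.norm_le _ (div_pos e0 A0).le).2 fun θ => by
      rw [ContinuousMap.sub_apply, norm_sub_rev]
      exact h2 _ (tor_mem θ)
  have b2 := ((Osg.lam ι).le_opNorm _).trans (mul_le_mul_of_nonneg_left
    ((norm_mul_le (ker z) _).trans (mul_le_mul_of_nonneg_left b (norm_nonneg _))) (norm_nonneg _))
  rw [e, zero_add]
  refine (norm_add_le _ _).trans ((add_le_add b2 (h2 z (ball_subset_closedBall hz))).trans_eq ?_)
  field_simp
  rw [hA]

theorem scale_mem {x w : ι → ℂ} {r : ℝ} (r0 : 0 < r) (hw : w ∈ closedBall (0 : ι → ℂ) 1) :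
    x + (r : ℂ) • w ∈ closedBall x r := by
  rw [mem_closedBall_zero_iff] at hw
  rw [add_mem_closedBall_iff_norm, norm_smul, norm_real, Real.norm_of_nonneg r0.le]
  exact mul_le_of_le_one_right r0.le hw

theorem ana_unscale {E : Type*} [NormedAddCommGroup E] [NormedSpace ℂ E] {F : (ι → ℂ) → E}
    {x : ι → ℂ} {r : ℝ} (r0 : 0 < r) (a : AnalyticAt ℂ (fun w => F (x + (r : ℂ) • w)) 0) :
    AnalyticAt ℂ F x := by
  have r1 : (r : ℂ) ≠ 0 := by exact_mod_cast r0.ne'
  have b := AnalyticAt.comp (g := fun w => F (x + (r : ℂ) • w))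
    (f := fun y => (r : ℂ)⁻¹ • (y - x)) (x := x) (by simpa using a) (by fun_prop)
  refine b.congr (.of_forall fun y => ?_)
  rw [Function.comp, smul_inv_smul₀ r1, add_sub_cancel]

/-- a uniform limit of holomorphic functions on a closed polydisc -/
theorem ana_approx {F : (ι → ℂ) → ℂ} {x : ι → ℂ} {r : ℝ} (r0 : 0 < r)
    (h : ∀ ε > 0, ∃ G : (ι → ℂ) → ℂ, DifferentiableOn ℂ G (closedBall x r) ∧
      ∀ w ∈ closedBall x r, ‖G w - F w‖ ≤ ε) : AnalyticAt ℂ F x :=
  ana_unscale r0 (ana_approx0 fun ε e0 => by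
    obtain ⟨G, h1, h2⟩ := h ε e0
    exact ⟨fun w => G (x + (r : ℂ) • w), h1.comp (by fun_prop) fun w hw => scale_mem r0 hw,
      fun w hw => h2 _ (scale_mem r0 hw)⟩)

/-- locally uniform limits of holomorphic functions are holomorphic -/
theorem hol_lim {α : Type*} {l : Filter α} [l.NeBot] {U : Set (ι → ℂ)} (hU : IsOpen U)
    {u : α → (ι → ℂ) → ℂ} {F : (ι → ℂ) → ℂ} (hu : ∀ᶠ n in l, DifferentiableOn ℂ (u n) U)
    (h : TendstoLocallyUniformlyOn u F l U) : DifferentiableOn ℂ F U := fun x hx => by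
  obtain ⟨r, r0, hr⟩ := nhds_basis_closedBall.mem_iff.1 (hU.mem_nhds hx)
  have h1 := (tendstoLocallyUniformlyOn_iff_tendstoUniformlyOn_of_compact
    (isCompact_closedBall x r)).1 (h.mono hr)
  refine (ana_approx r0 fun ε e0 => ?_).differentiableAt.differentiableWithinAt
  obtain ⟨n, h2, h3⟩ := (hu.and (Metric.tendstoUniformlyOn_iff.1 h1 ε e0)).exists
  refine ⟨u n, h2.mono hr, fun w hw => ?_⟩
  rw [← dist_eq_norm, dist_comm]
  exact (h3 w hw).le

/-- a locally bounded, weakly holomorphic family of functionals is analytic -/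
theorem ana_dual {X : Type*} [NormedAddCommGroup X] [NormedSpace ℂ X]
    {e : (ι → ℂ) → X →L[ℂ] ℂ} {x : ι → ℂ} {r M : ℝ} (r0 : 0 < r)
    (hd : ∀ f, DifferentiableOn ℂ (fun z => e z f) (closedBall x r))
    (hb : ∀ z ∈ closedBall x r, ‖e z‖ ≤ M) : AnalyticAt ℂ e x := by
  refine ana_unscale r0 ?_
  have M0 : 0 ≤ M := (norm_nonneg _).trans (hb x (mem_closedBall_self r0.le))
  have hd' : ∀ f, DifferentiableOn ℂ (fun w => e (x + (r : ℂ) • w) f) (closedBall 0 1) := fun f =>
    (hd f).comp (by fun_prop) fun w hw => scale_mem r0 hw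
  let Φ : X →L[ℂ] C(ι → Osg.Tc, ℂ) := LinearMap.mkContinuous
    ⟨⟨fun f => tor (hd' f).continuousOn, fun f g => by ext θ; simp [tor]⟩,
      fun c f => by ext θ; simp [tor]⟩ M fun f =>
    (ContinuousMap.norm_le _ (by positivity)).2 fun θ => ((e _).le_opNorm f).trans
      (mul_le_mul_of_nonneg_right (hb _ (scale_mem r0 (tor_mem θ))) (norm_nonneg _))
  let B : C(ι → Osg.Tc, ℂ) →L[ℂ] X →L[ℂ] ℂ :=
    (ContinuousLinearMap.compL ℂ X C(ι → Osg.Tc, ℂ) ℂ (Osg.lam ι)).comp
      (((ContinuousLinearMap.compL ℂ X C(ι → Osg.Tc, ℂ) C(ι → Osg.Tc, ℂ)).flip Φ).comp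
        (ContinuousLinearMap.mul ℂ C(ι → Osg.Tc, ℂ)))
  refine ((B.analyticAt _).comp ker_ana).congr ?_
  filter_upwards [ball_mem_nhds 0 one_pos] with z hz
  ext f
  exact lam_ker (hd' f) hz

/-- a continuous function with values in a countable set is constant on a preconnected set -/
theorem const_of_countable {X : Type*} [TopologicalSpace X] {U : Set X} (hU : IsPreconnected U)
    {f : X → ℂ} (hf : ContinuousOn f U) {A : Set ℂ} (hA : A.Countable) (h : ∀ x ∈ U, f x ∈ A)
    {x y : X} (hx : x ∈ U) (hy : y ∈ U) : f x = f y := by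
  have key : ∀ g : ℂ → ℝ, Continuous g → g (f x) = g (f y) := fun g hg => by
    have h1 : IsPreconnected ((fun z => g (f z)) '' U) := hU.image _ (hg.comp_continuousOn hf)
    have h2 : ((fun z => g (f z)) '' U).Countable :=
      (hA.image g).mono (by rintro _ ⟨z, hz, rfl⟩; exact ⟨_, h z hz, rfl⟩)
    exact h2.isTotallyDisconnected _ le_rfl h1 ⟨x, hx, rfl⟩ ⟨y, hy, rfl⟩
  exact Complex.ext (key _ continuous_re) (key _ continuous_im)

end

end Pool.Agent.Lib.MP_5c318e_ag.Bg
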