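import Pool.Agent.Lib.MP_5c318e_ag.S.RArea
import Pool.Agent.Lib.MP_5c318e_ag.Bg.Osv

/-! Power sums over the fibres of a covering of Riemann domains. -/

set_option autoImplicit false
set_option linter.unusedSectionVars false

namespace Pool.Agent.Lib.MP_5c318e_ag.Bg

open MeasureTheory Metric Filter Topology Set Function
open Pool.Agent.Lib.MP_9ff3e7_ag

noncomputable section

section top

variable {S1 S κ : Type}

/-- the sum of `u ^ j` over the fibre -/
def psum (p : S1 → S) (u : S1 → ℂ) (j : ℕ) (y : S) : ℂ := ∑' x : p ⁻¹' {y}, u x ^ j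

/-- the sum of `|u| ^ 2` over the fibre -/
def nsum (p : S1 → S) (u : S1 → ℂ) (y : S) : ℝ := ∑' x : p ⁻¹' {y}, ‖u x‖ ^ 2

/-- `σ` lists the fibre over `b` -/
structure Lists (p : S1 → S) (σ : κ → S1) (b : S) : Prop where
  map : ∀ k, p (σ k) = b
  inj : Injective σ
  surj : ∀ x, p x = b → ∃ k, σ k = x

variable {p : S1 → S} {σ : κ → S1} {b : S}

/-- the bijection with the fibre -/
def Lists.equiv (h : Lists p σ b) : κ ≃ p ⁻¹' {b} :=
  Equiv.ofBijective (fun k => ⟨σ k, h.map k⟩) ⟨fun _ _ e => h.inj (congrArg Subtype.val e),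
    fun x => (h.surj x x.2).imp fun _ e => Subtype.ext e⟩

theorem Lists.tsum {M : Type} [AddCommMonoid M] [TopologicalSpace M] (h : Lists p σ b)
    (F : S1 → M) : ∑' x : p ⁻¹' {b}, F x = ∑' k, F (σ k) :=
  (h.equiv.tsum_eq fun x => F x).symm

theorem Lists.summable {M : Type} [AddCommMonoid M] [TopologicalSpace M] (h : Lists p σ b)
    (F : S1 → M) : Summable (fun x : p ⁻¹' {b} => F x) ↔ Summable fun k => F (σ k) :=
  (h.equiv.summable_iff (f := fun x : p ⁻¹' {b} => F x)).symm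

variable [TopologicalSpace S1] [TopologicalSpace S]

theorem exists_sheets (hp : IsCoveringMap p) (y : S) : ∃ U : Set S, IsOpen U ∧ y ∈ U ∧
    ∃ σ : p ⁻¹' {y} → S → S1, (∀ k, ContinuousOn (σ k) U) ∧ ∀ b ∈ U, Lists p (σ · b) b := by
  classical
  obtain ⟨-, U, h1, h2, -, H, hH⟩ := hp y
  refine ⟨U, h2, h1, fun k b => if h : b ∈ U then (H.symm (⟨b, h⟩, k)).1 else k.1, fun k => ?_,
    fun b hb => ⟨fun k => ?_, fun k l e => ?_, fun x hx => ?_⟩⟩
  · rw [continuousOn_iff_continuous_domRestrict]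
    refine (continuous_subtype_val.comp (H.symm.continuous.comp
      (continuous_id.prodMk (continuous_const (y := k))))).congr fun b => ?_
    simp [b.2]
  · simp only [dif_pos hb]
    rw [← hH, H.apply_symm_apply]
  · simp only [dif_pos hb] at e
    exact congrArg Prod.snd (H.symm.injective (Subtype.ext e))
  · subst hx
    refine ⟨(H ⟨x, hb⟩).2, ?_⟩
    have : ((⟨p x, hb⟩ : U), (H ⟨x, hb⟩).2) = H ⟨x, hb⟩ :=
      Prod.ext (Subtype.ext (hH ⟨x, hb⟩).symm) rfl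
    simp only [dif_pos hb, this, H.symm_apply_apply]

theorem fib_countable [SigmaCompactSpace S1] [T1Space S] (hp : IsCoveringMap p) (y : S) :
    Countable (p ⁻¹' {y}) := by
  have := (hp y).discreteTopology_fiber
  have : SigmaCompactSpace (p ⁻¹' {y}) :=
    (isClosed_singleton.preimage hp.continuous).sigmaCompactSpace
  exact countable_of_Lindelof_of_discrete

end top

section fam

variable {ι κ : Type} [Fintype ι]

theorem pow_le {c : κ → ℂ} {I : κ → ℝ} (hI : Summable I) (h : ∀ k, ‖c k‖ ^ 2 ≤ I k) {j : ℕ}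
    (hj : 2 ≤ j) (k : κ) : ‖c k ^ j‖ ≤ I k * √(∑' k, I k) ^ (j - 2) := by
  obtain ⟨i, rfl⟩ := Nat.exists_eq_add_of_le hj
  have p : ∀ k, 0 ≤ I k := fun k => (sq_nonneg _).trans (h k)
  rw [norm_pow, pow_add, Nat.add_sub_cancel_left]
  exact mul_le_mul (h k) (pow_le_pow_left₀ (norm_nonneg _)
    (Real.le_sqrt_of_sq_le ((h k).trans (hI.le_tsum k fun l _ => p l))) _) (by positivity) (p k)

theorem summable_pow {c : κ → ℂ} {I : κ → ℝ} (hI : Summable I) (h : ∀ k, ‖c k‖ ^ 2 ≤ I k) {j : ℕ}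
    (hj : 2 ≤ j) : Summable fun k => c k ^ j :=
  .of_norm_bounded (hI.mul_right _) (pow_le hI h hj)

theorem norm_tsum_pow {c : κ → ℂ} {I : κ → ℝ} (hI : Summable I) (h : ∀ k, ‖c k‖ ^ 2 ≤ I k) {j : ℕ}
    (hj : 2 ≤ j) : ‖∑' k, c k ^ j‖ ≤ √(∑' k, I k) ^ j := by
  have p : 0 ≤ ∑' k, I k := tsum_nonneg fun k => (sq_nonneg _).trans (h k)
  refine (tsum_of_norm_bounded (hI.hasSum.mul_right _) (pow_le hI h hj)).trans_eq ?_
  obtain ⟨i, rfl⟩ := Nat.exists_eq_add_of_le hj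
  rw [pow_add, Real.sq_sqrt p, Nat.add_sub_cancel_left]

/-- a family with finite total mass is dominated on the half ball -/
theorem fam_bound [Countable κ] {f : κ → (ι → ℂ) → ℂ} {a : ι → ℂ} {r : ℝ}
    (hf : ∀ k, DifferentiableOn ℂ (f k) (ball a r))
    (hi : ∫⁻ z in ball a r, ∑' k, ENNReal.ofReal (‖f k z‖ ^ 2) < ⊤) :
    ∃ I : κ → ℝ, Summable I ∧ ∀ k, ∀ z ∈ ball a (r / 2), ‖f k z‖ ^ 2 ≤ I k := by
  rw [lintegral_tsum (f := fun k z => ENNReal.ofReal (‖f k z‖ ^ 2)) fun k =>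
    (((hf k).continuousOn.norm.pow 2).aemeasurable measurableSet_ball).ennreal_ofReal] at hi
  refine ⟨_, (ENNReal.summable_toReal hi.ne).div_const
    ((Real.pi * (r / 2) ^ 2) ^ Fintype.card ι), fun k z hz => ?_⟩
  have r0 := pos_of_mem_ball hz
  exact (le_div_iff₀ (by positivity)).2 (F.sq_le_l2 r0 ENNReal.toReal_nonneg (hf k)
    (F.ball_half_sub hz) (ENNReal.ofReal_toReal (ENNReal.ne_top_of_tsum_ne_top hi.ne k)).ge)

theorem fam_hol {f : κ → (ι → ℂ) → ℂ} {U : Set (ι → ℂ)} (hU : IsOpen U)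
    (hf : ∀ k, DifferentiableOn ℂ (f k) U) {I : κ → ℝ} (hI : Summable I)
    (h : ∀ k, ∀ z ∈ U, ‖f k z‖ ^ 2 ≤ I k) {j : ℕ} (hj : 2 ≤ j) :
    DifferentiableOn ℂ (fun z => ∑' k, f k z ^ j) U :=
  hol_lim (l := atTop) hU (.of_forall fun _ : Finset κ => .fun_sum fun k _ => (hf k).pow j)
    (tendstoUniformlyOn_tsum (hI.mul_right _) fun k z hz =>
      pow_le hI (fun k => h k z hz) hj k).tendstoLocallyUniformlyOn

end fam

variable {ι : Type} [Fintype ι] [DecidableEq ι] {S1 S : Type}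
  [TopologicalSpace S1] [MeasurableSpace S1] [BorelSpace S1] [T2Space S1] [SigmaCompactSpace S1]
  [TopologicalSpace S] [MeasurableSpace S] [BorelSpace S] [T2Space S] [SigmaCompactSpace S]
  {D1 : RD ι S1} {D : RD ι S} {p : S1 → S}

theorem jac_π (D : RD ι S) (x : S) : D.jac D.π x = 1 := by
  rw [RD.jac, RD.fd, Filter.EventuallyEq.fderiv_eq (f := fun z => z) (D.π_sec_ev x), fderiv_fun_id]
  exact LinearMap.det_id

/-- integrals upstairs are integrals of fibre sums -/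
theorem lintegral_cov (hp : Continuous p) (hπ : ∀ x, D.π (p x) = D1.π x) {G : S1 → ENNReal}
    (hG : Measurable G) : ∫⁻ x, G x ∂D1.μ = ∫⁻ y, ∑' x : p ⁻¹' {y}, G x ∂D.μ := by
  have h := D1.area D isOpen_univ hp.continuousOn (fun x _ => by
    simp only [hπ]
    exact differentiableAt_id.congr_of_eventuallyEq (D1.π_sec_ev x)) hG
  simp only [hπ, show (fun x => D1.π x) = D1.π from rfl, jac_π, norm_one, one_pow,
    ENNReal.ofReal_one, one_mul, Measure.restrict_univ] at h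
  rw [h]
  exact lintegral_congr fun y => tsum_congr_set_coe G (by ext x; simp [hπ, jac_π])

/-- a holomorphic function along a continuous local section of `π` -/
theorem hol_sec {u : S1 → ℂ} (hu : D1.Hol u) {σ : (ι → ℂ) → S1} {U : Set (ι → ℂ)} (hU : IsOpen U)
    (hc : ContinuousOn σ U) (h : ∀ z ∈ U, D1.π (σ z) = z) :
    DifferentiableOn ℂ (fun z => u (σ z)) U := fun z hz => by
  have e := D1.sec_unique (x := σ z) (σ := σ) (by rw [h z hz])
    (by rw [h z hz]; exact hc.continuousAt (hU.mem_nhds hz))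
    (by rw [h z hz]; exact mem_of_superset (hU.mem_nhds hz) h)
  have d := hu (σ z)
  rw [h z hz] at d e
  exact (d.congr_of_eventuallyEq (e.mono fun _ hw => congrArg u hw)).differentiableWithinAt

variable (hp : IsCoveringMap p) (hπ : ∀ x, D.π (p x) = D1.π x) {w : S → ℝ} (hw : Continuous w)
  (w0 : ∀ y, 0 < w y) {u : S1 → ℂ} (hu : D1.Hol u)
  (hi : ∫⁻ x, ENNReal.ofReal (‖u x‖ ^ 2 * w (p x)) ∂D1.μ < ⊤)

include hp hπ hw hu in
theorem lintegral_l2 : ∫⁻ x, ENNReal.ofReal (‖u x‖ ^ 2 * w (p x)) ∂D1.μ =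
    ∫⁻ y, (∑' x : p ⁻¹' {y}, ENNReal.ofReal (‖u x‖ ^ 2)) * ENNReal.ofReal (w y) ∂D.μ := by
  rw [lintegral_cov hp.continuous hπ (G := fun x => ENNReal.ofReal (‖u x‖ ^ 2 * w (p x)))
    ((hu.cont.norm.pow 2).mul (hw.comp hp.continuous)).measurable.ennreal_ofReal]
  refine lintegral_congr fun y => ?_
  rw [← ENNReal.tsum_mul_right]
  refine tsum_congr ?_
  rintro ⟨x, rfl⟩
  exact ENNReal.ofReal_mul (sq_nonneg _)

include hp hπ hw w0 hu hi

/-- the local picture: the branches of `u` over a small ball -/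
theorem exists_branches (y : S) : ∃ r > 0, ball (D.π y) r ⊆ (D.ch y).target ∧
    ∃ (σ : p ⁻¹' {y} → (ι → ℂ) → S1) (I : p ⁻¹' {y} → ℝ), Summable I ∧
      (∀ k, ContinuousOn (σ k) (ball (D.π y) r)) ∧
      (∀ k, DifferentiableOn ℂ (fun z => u (σ k z)) (ball (D.π y) r)) ∧
      ∀ z ∈ ball (D.π y) r, Lists p (σ · z) (D.sec y z) ∧ ∀ k, ‖u (σ k z)‖ ^ 2 ≤ I k := by
  have := fib_countable hp y
  obtain ⟨U, U1, U2, σ, s1, s2⟩ := exists_sheets hp y
  obtain ⟨r, r0, hr⟩ := D.exists_rad y (inter_mem (U1.mem_nhds U2)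
    (hw.continuousAt.eventually (lt_mem_nhds (half_lt_self (w0 y)))))
  have b := fun z (hz : z ∈ ball (D.π y) r) => hr (ball_subset_closedBall hz)
  have c : ∀ k, ContinuousOn (fun z => σ k (D.sec y z)) (ball (D.π y) r) := fun k =>
    (s1 k).comp ((D.sec_contOn y).mono fun z hz => (b z hz).1) fun z hz => (b z hz).2.1
  have d : ∀ k, DifferentiableOn ℂ (fun z => u (σ k (D.sec y z))) (ball (D.π y) r) := fun k =>
    hol_sec hu isOpen_ball (c k) fun z hz => by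
      rw [← hπ, (s2 _ (b z hz).2.1).map k, RD.π_sec (b z hz).1]
  have o : IsOpen ((D.ch y).source ∩ D.π ⁻¹' ball (D.π y) r) :=
    (D.ch y).open_source.inter (isOpen_ball.preimage D.cont_π)
  have im : D.π '' ((D.ch y).source ∩ D.π ⁻¹' ball (D.π y) r) = ball (D.π y) r := by
    refine Subset.antisymm (by rintro _ ⟨x, hx, rfl⟩; exact hx.2) fun z hz => ?_
    exact ⟨D.sec y z, ⟨RD.sec_mem (b z hz).1, by
      rw [mem_preimage, RD.π_sec (b z hz).1]; exact hz⟩, RD.π_sec (b z hz).1⟩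
  obtain ⟨I, I1, I2⟩ := fam_bound d (by
    rw [lintegral_l2 hp hπ hw hu] at hi
    have h := (setLIntegral_le_lintegral ((D.ch y).source ∩ D.π ⁻¹' ball (D.π y) r) _).trans_lt hi
    rw [RArea.lint_sec D y o.measurableSet inter_subset_left, im] at h
    refine ENNReal.lt_top_of_mul_ne_top_left (b := ENNReal.ofReal (w y / 2)) (ne_of_lt ?_)
      (by simpa using w0 y)
    rw [← lintegral_mul_const' _ _ ENNReal.ofReal_ne_top]
    refine lt_of_le_of_lt (setLIntegral_mono' measurableSet_ball fun z hz => ?_) h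
    rw [(s2 _ (b z hz).2.1).tsum fun x => ENNReal.ofReal (‖u x‖ ^ 2)]
    exact mul_le_mul_right (ENNReal.ofReal_le_ofReal (le_of_lt (b z hz).2.2)) _)
  have s : ball (D.π y) (r / 2) ⊆ ball (D.π y) r := ball_subset_ball (half_le_self r0.le)
  exact ⟨r / 2, half_pos r0, fun z hz => (b z (s hz)).1, fun k z => σ k (D.sec y z), I, I1,
    fun k => (c k).mono s, fun k => (d k).mono s,
    fun z hz => ⟨s2 _ (b z (s hz)).2.1, fun k => I2 k z hz⟩⟩

theorem summable_sq (y : S) : Summable fun x : p ⁻¹' {y} => ‖u x‖ ^ 2 := by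
  obtain ⟨r, r0, -, σ, I, I1, -, -, h⟩ := exists_branches hp hπ hw w0 hu hi y
  obtain ⟨h1, h2⟩ := h _ (mem_ball_self r0)
  rw [D.sec_self] at h1
  exact (h1.summable fun x => ‖u x‖ ^ 2).2 (.of_nonneg_of_le (fun _ => sq_nonneg _) h2 I1)

theorem summable_fib {j : ℕ} (hj : 2 ≤ j) (y : S) : Summable fun x : p ⁻¹' {y} => u x ^ j :=
  summable_pow (summable_sq hp hπ hw w0 hu hi y) (fun _ => le_rfl) hj

theorem norm_psum {j : ℕ} (hj : 2 ≤ j) (y : S) : ‖psum p u j y‖ ≤ √(nsum p u y) ^ j :=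
  norm_tsum_pow (summable_sq hp hπ hw w0 hu hi y) (fun _ => le_rfl) hj

/-- the power sums are holomorphic -/
theorem psum_hol {j : ℕ} (hj : 2 ≤ j) : D.Hol (psum p u j) := fun y => by
  obtain ⟨r, r0, -, σ, I, I1, -, d, h⟩ := exists_branches hp hπ hw w0 hu hi y
  refine ((fam_hol isOpen_ball d I1 (fun k z hz => (h z hz).2 k) hj).differentiableAt
    (ball_mem_nhds _ r0)).congr_of_eventuallyEq ?_
  filter_upwards [ball_mem_nhds _ r0] with z hz
  exact (h z hz).1.tsum fun x => u x ^ j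

/-- the fibre sums of `|u| ^ 2` are locally bounded -/
theorem nsum_bdd (y : S) : ∃ C, ∀ᶠ b in 𝓝 y, nsum p u b ≤ C := by
  obtain ⟨r, r0, -, σ, I, I1, -, -, h⟩ := exists_branches hp hπ hw w0 hu hi y
  refine ⟨∑' k, I k, ?_⟩
  filter_upwards [(D.ch y).open_source.mem_nhds (D.mem_src y),
    D.cont_π.continuousAt.eventually (ball_mem_nhds _ r0)] with b h1 h2
  obtain ⟨h3, h4⟩ := h _ h2
  rw [RD.sec_π h1] at h3
  rw [nsum, h3.tsum fun x => ‖u x‖ ^ 2]
  exact (Summable.of_nonneg_of_le (fun _ => sq_nonneg _) h4 I1).tsum_le_tsum h4 I1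

theorem ofReal_nsum (y : S) :
    ENNReal.ofReal (nsum p u y) = ∑' x : p ⁻¹' {y}, ENNReal.ofReal (‖u x‖ ^ 2) :=
  ENNReal.ofReal_tsum_of_nonneg (fun _ => sq_nonneg _) (summable_sq hp hπ hw w0 hu hi y)

theorem lintegral_nsum : ∫⁻ y, ENNReal.ofReal (nsum p u y * w y) ∂D.μ =
    ∫⁻ x, ENNReal.ofReal (‖u x‖ ^ 2 * w (p x)) ∂D1.μ := by
  rw [lintegral_l2 hp hπ hw hu]
  refine lintegral_congr fun y => ?_
  rw [ENNReal.ofReal_mul' (w0 y).le, ofReal_nsum hp hπ hw w0 hu hi]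

theorem psum_rpow {j : ℕ} (hj : 2 ≤ j) (y : S) : ‖psum p u j y‖ ^ (2 / j : ℝ) ≤ nsum p u y := by
  have n : 0 ≤ nsum p u y := tsum_nonneg fun _ => sq_nonneg _
  have j0 : (j : ℝ) ≠ 0 := by positivity
  refine (Real.rpow_le_rpow (norm_nonneg _) (norm_psum hp hπ hw w0 hu hi hj y)
    (by positivity)).trans_eq ?_
  rw [← Real.rpow_natCast, ← Real.rpow_mul (Real.sqrt_nonneg _), mul_div_cancel₀ _ j0,
    Real.rpow_two, Real.sq_sqrt n]

/-- the input of the rationality theorem, with exponent `2 / j` -/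
theorem lintegral_psum {j : ℕ} (hj : 2 ≤ j) :
    ∫⁻ y, ENNReal.ofReal (‖psum p u j y‖ ^ (2 / j : ℝ) * w y) ∂D.μ ≤
      ∫⁻ x, ENNReal.ofReal (‖u x‖ ^ 2 * w (p x)) ∂D1.μ := by
  rw [← lintegral_nsum hp hπ hw w0 hu hi]
  exact lintegral_mono fun y => ENNReal.ofReal_le_ofReal
    (mul_le_mul_of_nonneg_right (psum_rpow hp hπ hw w0 hu hi hj y) (w0 y).le)

end

end Pool.Agent.Lib.MP_5c318e_ag.Bg
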