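import Pool.Agent.Lib.MP_5c318e_ag.Bg.Sub
import Pool.Agent.Lib.MP_5c318e_ag.Z.LDefs
import Pool.Agent.Lib.MP_5c318e_ag.S.RAlg
import Pool.Agent.Lib.MP_5c318e_ag.S.CCov

/-! Holomorphic functions of moderate growth on a finite chart are regular; power sums. -/

set_option autoImplicit false
set_option linter.unusedSectionVars false

namespace Pool.Agent.Lib.MP_5c318e_ag.Bg

open MeasureTheory Metric Filter Topology Set Function

variable {δ K : Type} [Fintype δ] [DecidableEq δ] [Field K] [Algebra ℂ K] (B : FCht δ K)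

theorem dv_ne (p : Pt B.O) : B.dv p ≠ 0 := by
  have h := B.fin.Δ_ne p
  rwa [Pt.map_complex, ← B.toCht.π_fun] at h

theorem le_sz (p : Pt B.O) : 1 + ‖B.D.π p‖ ≤ B.sz p := le_add_of_nonneg_left (by positivity)

theorem one_le_sz (p : Pt B.O) : 1 ≤ B.sz p :=
  (le_add_of_nonneg_right (norm_nonneg _)).trans (le_sz B p)

theorem inv_le_sz (p : Pt B.O) : ‖B.dv p‖⁻¹ ≤ B.sz p := by
  refine le_trans ?_ (le_add_of_nonneg_right (by positivity))
  rw [div_eq_mul_inv]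
  exact le_mul_of_one_le_left (by positivity) (le_add_of_nonneg_right (norm_nonneg _))

variable {B}

theorem tem_nf {u : Pt B.O → ℝ} (h : B.Tem u) :
    ∃ (A : ℝ) (N : ℕ), 1 ≤ A ∧ ∀ p, u p ≤ A * B.sz p ^ N := by
  obtain ⟨A, N, h⟩ := h
  exact ⟨max A 1, N, le_max_right _ _, fun p => (h p).trans (mul_le_mul_of_nonneg_right
    (le_max_left _ _) (pow_nonneg (zero_le_one.trans (one_le_sz B p)) _))⟩

theorem tem_mono {u v : Pt B.O → ℝ} (h : B.Tem u) (hv : ∀ p, v p ≤ u p) : B.Tem v := by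
  obtain ⟨A, N, h⟩ := h
  exact ⟨A, N, fun p => (hv p).trans (h p)⟩

theorem tem_mul {u v : Pt B.O → ℝ} (h : B.Tem u) (h' : B.Tem v) (hv : ∀ p, 0 ≤ v p) :
    B.Tem fun p => u p * v p := by
  obtain ⟨A, N, hA, h⟩ := tem_nf h
  obtain ⟨A', N', h'⟩ := h'
  refine ⟨A * A', N + N', fun p => (mul_le_mul (h p) (h' p) (hv p) ?_).trans_eq (by ring)⟩
  have := one_le_sz B p
  positivity

theorem tem_pow {u : Pt B.O → ℝ} (h : B.Tem u) (hu : ∀ p, 0 ≤ u p) (n : ℕ) :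
    B.Tem fun p => u p ^ n := by
  obtain ⟨A, N, h⟩ := h
  exact ⟨A ^ n, N * n, fun p => (pow_le_pow_left₀ (hu p) (h p) n).trans_eq (by ring)⟩

theorem tem_one_add {u : Pt B.O → ℝ} (h : B.Tem u) : B.Tem fun p => 1 + u p := by
  obtain ⟨A, N, h⟩ := h
  refine ⟨1 + A, N, fun p => ?_⟩
  rw [add_mul, one_mul]
  exact add_le_add (one_le_pow₀ (one_le_sz B p)) (h p)

theorem tem_elt (φ : B.O) : B.Tem fun p => ‖p φ‖ := by
  obtain ⟨C, -, -, hw⟩ := B.toCht.cov B.fin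
  obtain ⟨P, j, hP⟩ := B.fin.gen_pt φ
  obtain ⟨A, N, hA⟩ := C.w_bound
  obtain ⟨A', N', hA', hP'⟩ := pl_ev2 P
  refine ⟨A' * (|A| + 1) ^ N', (N + 1) * N' + j, fun p => ?_⟩
  have h1 := hP p
  rw [Pt.map_complex, Polynomial.map_id, ← B.toCht.π_fun, RingHom.id_apply] at h1
  have s1 := one_le_sz B p
  have hR1 : B.sz p ≤ (|A| + 1) * B.sz p ^ (N + 1) :=
    (le_self_pow₀ s1 N.succ_ne_zero).trans
      (le_mul_of_one_le_left (by positivity) (le_add_of_nonneg_left (abs_nonneg _)))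
  have hn : ‖(B.D.π p, p B.fin.w)‖ ≤ (|A| + 1) * B.sz p ^ (N + 1) := by
    rw [Prod.norm_mk]
    refine max_le (((le_add_of_nonneg_left zero_le_one).trans (le_sz B p)).trans hR1) ?_
    rw [← hw]
    exact (hA p).trans (mul_le_mul ((le_abs_self _).trans (le_add_of_nonneg_right zero_le_one))
      ((pow_le_pow_left₀ (by positivity) (le_sz B p) N).trans (pow_le_pow_right₀ s1 N.le_succ))
      (by positivity) (by positivity))
  have h3 := (hP' _ (s1.trans hR1) _ _ hn hn).1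
  have h2 : p φ = ev2 P (B.D.π p) (p B.fin.w) * (B.dv p)⁻¹ ^ j := by
    rw [← h1, inv_pow]
    exact (mul_inv_cancel_right₀ (pow_ne_zero j (dv_ne B p)) _).symm
  beta_reduce
  rw [h2, norm_mul, norm_pow, norm_inv]
  exact (mul_le_mul h3 (pow_le_pow_left₀ (by positivity) (inv_le_sz B p) j) (by positivity)
    (by positivity)).trans_eq (by rw [mul_pow, ← pow_mul, pow_add (B.sz p) _ j]; ring)

/-- a weight with moderate inverse dominates a standard weight -/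
theorem tem_weight {w : Pt B.O → ℝ} (w0 : ∀ p, 0 < w p) (h : B.Tem fun p => (w p)⁻¹) :
    ∃ (A : ℝ) (k N : ℕ), ∀ p, ‖B.dv p‖ ^ k / (1 + ‖B.D.π p‖ ^ 2) ^ N ≤ A * w p := by
  obtain ⟨A, N, hA, h⟩ := tem_nf h
  obtain ⟨A', N', hA', h'⟩ := pl_mv B.fin.Δ
  refine ⟨A * ((1 + A') * 2 ^ (N' + 1)) ^ N, N, (N' + 1) * N, fun p => ?_⟩
  have n := norm_nonneg (B.D.π p)
  have e1 : 1 + ‖B.D.π p‖ ≤ 2 * (1 + ‖B.D.π p‖ ^ 2) := by nlinarith [sq_nonneg (‖B.D.π p‖ - 1)]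
  have e2 : ‖B.dv p‖ ≤ A' * (1 + ‖B.D.π p‖) ^ N' :=
    (h' _ (by linarith) _ _ (by linarith) (by linarith)).1
  have d := norm_pos_iff.2 (dv_ne B p)
  have e3 : ‖B.dv p‖ * B.sz p ≤ (1 + A') * 2 ^ (N' + 1) * (1 + ‖B.D.π p‖ ^ 2) ^ (N' + 1) := by
    have a : ‖B.dv p‖ * B.sz p = (1 + ‖B.dv p‖) * (1 + ‖B.D.π p‖) := by
      rw [FCht.sz]; field_simp
    have b : 1 + ‖B.dv p‖ ≤ (1 + A') * (1 + ‖B.D.π p‖) ^ N' := by
      rw [add_mul, one_mul]
      exact add_le_add (one_le_pow₀ (by linarith)) e2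
    rw [a, mul_assoc, ← mul_pow]
    refine (mul_le_mul_of_nonneg_right b (by linarith)).trans ?_
    rw [mul_assoc, ← pow_succ]
    exact mul_le_mul_of_nonneg_left (pow_le_pow_left₀ (by linarith) e1 _) (by linarith)
  have e4 := pow_le_pow_left₀ (mul_nonneg d.le (zero_le_one.trans (one_le_sz B p))) e3 N
  have e5 : 1 ≤ A * B.sz p ^ N * w p := by
    have := mul_le_mul_of_nonneg_right (h p) (w0 p).le
    rwa [inv_mul_cancel₀ (w0 p).ne'] at this
  have := w0 p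
  rw [div_le_iff₀ (by positivity)]
  calc _ ≤ ‖B.dv p‖ ^ N * (A * B.sz p ^ N * w p) := le_mul_of_one_le_right (by positivity) e5
    _ = A * w p * (‖B.dv p‖ * B.sz p) ^ N := by ring
    _ ≤ _ := (mul_le_mul_of_nonneg_left e4 (by positivity)).trans_eq (by
        rw [mul_pow _ (_ ^ (N' + 1)) N, ← pow_mul]; ac_rfl)

/-- holomorphic and integrable against a moderate weight: regular -/
theorem exists_elt {w : Pt B.O → ℝ} (w0 : ∀ p, 0 < w p) (h : B.Tem fun p => (w p)⁻¹)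
    {u : Pt B.O → ℂ} (hu : B.D.Hol u) {s : ℝ} (hs : 0 < s)
    (hi : ∫⁻ p, ENNReal.ofReal (‖u p‖ ^ s * w p) ∂B.D.μ < ⊤) : ∃ φ : B.O, ∀ p : Pt B.O, p φ = u p := by
  obtain ⟨C, -, hΔ, hw⟩ := B.toCht.cov B.fin
  obtain ⟨A, k, N, hA⟩ := tem_weight w0 h
  obtain ⟨P, j, hP⟩ := C.alg_rpow hu hs k N (by
    refine lt_of_le_of_lt (lintegral_mono fun p => ?_)
      ((lintegral_const_mul' (ENNReal.ofReal |A|) _ ENNReal.ofReal_ne_top).trans_lt
        (ENNReal.mul_lt_top ENNReal.ofReal_lt_top hi))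
    rw [← ENNReal.ofReal_mul (abs_nonneg _), hΔ, mul_div_assoc, mul_left_comm]
    exact ENNReal.ofReal_le_ofReal (mul_le_mul_of_nonneg_left ((hA p).trans
      (mul_le_mul_of_nonneg_right (le_abs_self _) (w0 p).le)) (by positivity)))
  obtain ⟨v, hv⟩ := B.fin.unit.exists_right_inv
  refine ⟨P.eval₂ (MvPolynomial.eval₂Hom (Algebra.ofId ℂ B.O : ℂ →+* B.O) B.z) B.fin.w * v ^ j,
    fun p => ?_⟩
  have e := congrArg p hv
  rw [map_mul, map_one, p.apply_mv, Pt.map_complex, ← B.toCht.π_fun, RingHom.id_apply] at e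
  rw [map_mul, map_pow, p.apply_ev2, Pt.map_complex, Polynomial.map_id, ← B.toCht.π_fun, ← hw,
    ← hP, hΔ, mul_assoc, ← mul_pow, e, one_pow, mul_one]

variable {η : K} {k0 : ℕ} {Dn : Pt B.O → ℝ} {ν : ℕ}

theorem dn_pos (hB : Base B η k0) (p : Pt B.O) : 0 < B.dn η k0 p :=
  Real.rpow_pos_of_pos (norm_pos_iff.2 (hB.ne p)) _

theorem dn_cont (hB : Base B η k0) : Continuous (B.dn η k0) :=
  (continuous_iff_continuousAt.2 fun p =>
    (p.reg_of_mem hB.mem).continuousAt).norm.rpow_const fun _ => Or.inr (by positivity)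

theorem exp_le (hB : Base B η k0) : (2 / k0 : ℝ) ≤ 2 :=
  div_le_self zero_le_two (by exact_mod_cast hB.pos)

theorem tem_dn (hB : Base B η k0) : B.Tem fun p => (B.dn η k0 p)⁻¹ := by
  have hu : IsUnit (⟨η, hB.mem⟩ : B.O) := by
    by_contra hn
    obtain ⟨p, hp⟩ := Pt.exists_zero (Ideal.span_singleton_ne_top hn)
    exact hB.ne p ((p.ev_of_mem hB.mem).trans (hp _ (Ideal.mem_span_singleton_self _)))
  obtain ⟨v, hv⟩ := hu.exists_right_inv
  refine tem_mono (tem_pow (tem_one_add (tem_elt v)) (fun p => by positivity) 2) fun p => ?_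
  have e := congrArg p hv
  rw [map_mul, map_one, ← p.ev_of_mem hB.mem] at e
  rw [FCht.dn, ← Real.inv_rpow (norm_nonneg _), ← norm_inv, inv_eq_of_mul_eq_one_right e,
    ← Real.rpow_two]
  exact (Real.rpow_le_rpow (norm_nonneg _) (le_add_of_nonneg_left zero_le_one)
    (by positivity)).trans (Real.rpow_le_rpow_of_exponent_le
      (le_add_of_nonneg_right (norm_nonneg _)) (exp_le hB))

theorem Dn_cont (L : Lin B Dn ν) : Continuous Dn :=
  RD.cont_of_sec (D := B.D) fun p => (L.ana p).continuousAt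

theorem wt_pos (hB : Base B η k0) (L : Lin B Dn ν) (t : ℕ) (p : Pt B.O) :
    0 < Dn p ^ t * B.dn η k0 p := mul_pos (pow_pos (L.pos p) t) (dn_pos hB p)

theorem wt_cont (hB : Base B η k0) (L : Lin B Dn ν) (t : ℕ) :
    Continuous fun p => Dn p ^ t * B.dn η k0 p := ((Dn_cont L).pow t).mul (dn_cont hB)

theorem wt_tem (hB : Base B η k0) (L : Lin B Dn ν) (t : ℕ) :
    B.Tem fun p => (Dn p ^ t * B.dn η k0 p)⁻¹ := by
  simpa only [mul_inv, inv_pow] using tem_mul (tem_pow L.tem' (fun p => (inv_pos.2 (L.pos p)).le) t)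
    (tem_dn hB) fun p => (inv_pos.2 (dn_pos hB p)).le

/-- the power sums are regular functions -/
theorem psum_elt (hB : Base B η k0) (L : Lin B Dn ν) {S1 : Type} [TopologicalSpace S1]
    [MeasurableSpace S1] [BorelSpace S1] [T2Space S1] [SigmaCompactSpace S1] {D1 : RD δ S1}
    {p : S1 → Pt B.O} (hp : IsCoveringMap p) (hπ : ∀ x, B.D.π (p x) = D1.π x) {u : S1 → ℂ}
    (hu : D1.Hol u) {t : ℕ}
    (hi : ∫⁻ x, ENNReal.ofReal (‖u x‖ ^ 2 * (Dn (p x) ^ t * B.dn η k0 (p x))) ∂D1.μ < ⊤)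
    {j : ℕ} (hj : 2 ≤ j) : ∃ φ : B.O, ∀ y : Pt B.O, y φ = psum p u j y :=
  exists_elt (wt_pos hB L t) (wt_tem hB L t)
    (psum_hol hp hπ (wt_cont hB L t) (wt_pos hB L t) hu hi hj) (s := 2 / j) (by positivity)
    ((lintegral_psum hp hπ (wt_cont hB L t) (wt_pos hB L t) hu hi hj).trans_lt hi)

end Pool.Agent.Lib.MP_5c318e_ag.Bg
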