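import Pool.Agent.Lib.MP_5c318e_ag.Bg.Reg
import Pool.Agent.Lib.MP_5c318e_ag.Bg.Horn
import Pool.Agent.Lib.MP_5c318e_ag.S.CV

/-! The power sums of a square integrable function on the covering are regular sections. -/

set_option autoImplicit false
set_option linter.unusedSectionVars false

namespace Pool.Agent.Lib.MP_5c318e_ag

open MeasureTheory Metric Filter Topology Set Function

namespace Bg

theorem nsum_cont {ι : Type} [Fintype ι] [DecidableEq ι] {S1 S : Type} [TopologicalSpace S1]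
    [MeasurableSpace S1] [BorelSpace S1] [T2Space S1] [SigmaCompactSpace S1] [TopologicalSpace S]
    [MeasurableSpace S] [BorelSpace S] [T2Space S] [SigmaCompactSpace S] {D1 : RD ι S1}
    {D : RD ι S} {p : S1 → S} (hp : IsCoveringMap p) (hπ : ∀ x, D.π (p x) = D1.π x) {w : S → ℝ}
    (hw : Continuous w) (w0 : ∀ y, 0 < w y) {u : S1 → ℂ} (hu : D1.Hol u)
    (hi : ∫⁻ x, ENNReal.ofReal (‖u x‖ ^ 2 * w (p x)) ∂D1.μ < ⊤) : Continuous (nsum p u) :=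
  RD.cont_of_sec (D := D) fun y => by
    obtain ⟨r, r0, -, σ, I, I1, -, d, h⟩ := exists_branches hp hπ hw w0 hu hi y
    refine ((continuousOn_tsum (f := fun k z => ‖u (σ k z)‖ ^ 2)
      (fun k => (d k).continuousOn.norm.pow 2) I1 fun k z hz => by
        rw [Real.norm_of_nonneg (sq_nonneg _)]
        exact (h z hz).2 k).continuousAt (ball_mem_nhds _ r0)).congr ?_
    filter_upwards [ball_mem_nhds _ r0] with z hz
    exact ((h z hz).1.tsum fun x => ‖u x‖ ^ 2).symm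

variable {δ K : Type} [Fintype δ] [DecidableEq δ] [Field K] [Algebra ℂ K]

section bdy

variable {B : Cht δ K} {P : ValuationSubring K} (b : Bdy B P) {c : Pt b.C.O}

theorem tau_ne (hc : c (b.C.z b.i0) ≠ 0) : c b.τ.h ≠ 0 := by rwa [b.hτ]

theorem same (hc : c (b.C.z b.i0) ≠ 0) : c.Same (b.τ.map c) := (b.τ.same c (tau_ne b hc)).1

theorem ev_z (hc : c (b.C.z b.i0) ≠ 0) : (b.τ.map c).ev b.z = c (b.C.z b.i0) := by
  rw [← (same b hc _).2]
  exact c.ev_coe _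

theorem gen_reg {φ : K} (hφ : φ ∈ P) : ∀ᶠ c0 in b.gen, c0.Reg φ := by
  obtain ⟨a, e, he, h⟩ := b.cen.loc φ hφ
  exact ⟨e, he, fun _ _ h2 => ⟨a, e, h2, h⟩⟩

theorem gen_z : ∀ᶠ c0 in b.gen, c0 (b.C.z b.i0) = 0 := ⟨1, by simp, fun _ h _ => h⟩

theorem gen_neBot : b.gen.NeBot := forall_mem_nonempty_iff_neBot.1 fun U ⟨e, he, h⟩ => by
  obtain ⟨c, h1, h2⟩ := Pt.exists_zero_ne (I := Ideal.span {b.C.z b.i0}) (h := e) (by
    rintro ⟨n, hn⟩
    obtain ⟨t, ht⟩ := Ideal.mem_span_singleton.1 hn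
    have v := congrArg (fun a : b.C.O => P.valuation (a : K)) ht
    simp only [SubmonoidClass.coe_pow, map_pow, he, one_pow, MulMemClass.coe_mul, map_mul] at v
    exact absurd v (mul_lt_one_of_nonneg_of_lt_one_left zero_le b.cen.ad.lt
      ((P.valuation_le_one_iff _).2 (b.cen.le _ t.2))).ne')
  exact ⟨c, h c (h1 _ (Ideal.mem_span_singleton_self _)) h2⟩

theorem sec_z {c0 : Pt b.C.O} {y : δ → ℂ} (hy : y ∈ (b.C.D.ch c0).target) :
    b.C.D.sec c0 y (b.C.z b.i0) = y b.i0 := by rw [← b.C.π_eq, RD.π_sec hy]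

theorem near_neBot {c0 : Pt b.C.O} (h : c0 (b.C.z b.i0) = 0) :
    (𝓝[{c : Pt b.C.O | c (b.C.z b.i0) ≠ 0}] c0).NeBot := by
  have t : Tendsto (fun t : ℂ => update (b.C.D.π c0) b.i0 t) (𝓝[≠] 0) (𝓝 (b.C.D.π c0)) :=
    (Continuous.tendsto' (by fun_prop) 0 _ (by rw [← h, ← b.C.π_eq, update_eq_self])).mono_left
      nhdsWithin_le_nhds
  refine Tendsto.neBot (x := 𝓝[≠] (0 : ℂ)) (tendsto_nhdsWithin_iff.2
    ⟨(b.C.D.tendsto_sec c0).comp t, ?_⟩)
  filter_upwards [t.eventually (RD.tgt_nhds (b.C.D.mem_tgt c0)), self_mem_nhdsWithin] with s h1 h2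
  show b.C.D.sec c0 _ _ ≠ 0
  rwa [sec_z b h1, update_self]

/-- growth controls the order -/
theorem ge_of_bound {g : K} (hg : g ∈ B.O) {n : ℤ} (h : ∀ᶠ c0 in b.gen, ∃ κ : ℝ,
    ∀ᶠ c in 𝓝[{c : Pt b.C.O | c (b.C.z b.i0) ≠ 0}] c0,
      ‖(b.τ.map c).ev g‖ ≤ κ * ‖c (b.C.z b.i0)‖ ^ n) : b.Ge g n := by
  by_contra hn
  have v : 1 < P.valuation (g / b.z ^ n) := not_le.1 fun h => hn ((P.valuation_le_one_iff _).1 h)
  have ne : g / b.z ^ n ≠ 0 := fun e => by rw [e, map_zero] at v; exact not_lt_zero v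
  obtain ⟨a, e, he, ha⟩ := b.cen.loc _ ((P.mem_or_inv_mem _).resolve_left hn)
  obtain ⟨t, ht⟩ := b.cen.ker a (by
    rw [← ha, map_mul, he, mul_one, map_inv₀]
    exact inv_lt_one_of_one_lt₀ v)
  have := gen_neBot b
  obtain ⟨c0, ⟨κ, h1⟩, h2, h3⟩ := (h.and ((gen_z b).and (show ∀ᶠ c0 in b.gen, c0 e ≠ 0 from
    ⟨e, he, fun _ _ h => h⟩))).exists
  have := near_neBot b h2
  have l : Tendsto (fun c : Pt b.C.O => κ * ‖c a‖) (𝓝[{c | c (b.C.z b.i0) ≠ 0}] c0) (𝓝 0) :=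
    (Continuous.tendsto' (continuous_const.mul (Pt.continuous_apply a).norm) c0 0
      (by simp [ht, h2])).mono_left nhdsWithin_le_nhds
  refine h3 (norm_le_zero_iff.1 (le_of_tendsto_of_tendsto
    (((Pt.continuous_apply e).norm.tendsto c0).mono_left nhdsWithin_le_nhds) l ?_))
  filter_upwards [h1, self_mem_nhdsWithin] with c h4 h5
  have z0 : c.ev b.z ≠ 0 := by rw [Bdy.z, c.ev_coe]; exact h5
  have r1 := c.ev_zpow (c.reg_coe (b.C.z b.i0)) z0 n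
  have r2 := c.ev_div ((same b h5 g).1.2 ((b.τ.map c).reg_of_mem hg)) r1.1
    (by rw [r1.2]; exact zpow_ne_zero _ z0)
  have e1 : (e : K) = g / b.z ^ n * a := by rw [← ha, mul_inv_cancel_left₀ ne]
  have e2 := (c.ev_mul r2.1 (c.reg_coe a)).2
  rw [r2.2, r1.2, (same b h5 g).2, c.ev_coe, c.ev_coe] at e2
  rw [← c.ev_coe e, e1, Bdy.z, e2, norm_mul, norm_div, norm_zpow]
  exact mul_le_mul_of_nonneg_right ((div_le_iff₀ (zpow_pos (norm_pos_iff.2 h5) n)).2 h4)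
    (norm_nonneg _)

theorem ge_mono {g : K} {n m : ℤ} (h : b.Ge g n) (hm : m ≤ n) : b.Ge g m := by
  obtain ⟨k, rfl⟩ := Int.le.dest hm
  have z0 : b.z ≠ 0 := b.cen.ad.ne
  have e : g / b.z ^ m = g / b.z ^ (m + k) * b.z ^ k := by
    rw [zpow_add₀ z0, zpow_natCast]
    field_simp
  rw [Bdy.Ge, e]
  exact P.mul_mem _ _ h (P.toSubring.pow_mem (b.cen.le _ (b.C.z b.i0).2) k)

theorem hm_cont {c0 : Pt b.C.O} {y : δ → ℂ} (hy : y ∈ (b.C.D.ch c0).target) (h0 : y b.i0 ≠ 0) :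
    ContinuousAt (fun y => b.τ.map (b.C.D.sec c0 y)) y :=
  (b.τ.continuousAt (tau_ne b (by rwa [sec_z b hy]))).comp (RD.sec_contAt hy)

theorem hm_diff {c0 : Pt b.C.O} {y : δ → ℂ} (hy : y ∈ (b.C.D.ch c0).target) (h0 : y b.i0 ≠ 0) :
    DifferentiableAt ℂ (fun y => B.D.π (b.τ.map (b.C.D.sec c0 y))) y := by
  have hp := tau_ne b (c := b.C.D.sec c0 y) (by rwa [sec_z b hy])
  have h := (b.C.cvEv.jac (f := fun i => (B.z i : K)) (g := fun p => B.D.π (b.τ.map p))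
    (p := b.C.D.sec c0 y) (fun i => (b.τ.map_apply hp _).1) (by
      filter_upwards [b.τ.isOpen.mem_nhds hp] with q hq i
      rw [B.π_eq, (b.τ.map_apply hq _).2]
      rfl)).1
  rw [RD.π_sec hy] at h
  exact h.congr_of_eventuallyEq (RD.germ_f (fun p => B.D.π (b.τ.map p)) hy)

/-- from the punctured polydisc to the filter of nearby points -/
theorem ev_near {c0 : Pt b.C.O} {r : ℝ} (r0 : 0 < r) {Q : Pt b.C.O → ℂ → Prop}
    (h : ∀ y ∈ ball (b.C.D.π c0) r ∩ {y | y b.i0 ≠ 0}, Q (b.C.D.sec c0 y) (y b.i0)) :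
    ∀ᶠ c in 𝓝[{c : Pt b.C.O | c (b.C.z b.i0) ≠ 0}] c0, Q c (c (b.C.z b.i0)) := by
  filter_upwards [self_mem_nhdsWithin, nhdsWithin_le_nhds ((b.C.D.ch c0).open_source.mem_nhds
    (b.C.D.mem_src c0)), nhdsWithin_le_nhds (b.C.D.cont_π.continuousAt.eventually
      (ball_mem_nhds _ r0))] with c h1 h2 h3
  have := h _ ⟨h3, by rw [mem_ofPred, b.C.π_eq]; exact h1⟩
  rwa [RD.sec_π h2, b.C.π_eq] at this

end bdy

variable {B : FCht δ K} {η : K} {k0 : ℕ} {Dn : Pt B.O → ℝ} {ν : ℕ} {Γ : Type} [Group Γ]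
  {c : G.Coc (Pt B.O) Γ}

/-- the density of `η` in the chart at the divisor -/
theorem dn_ge (hB : Base B η k0) {P : ValuationSubring K} (b : Bdy B.toCht P) {e : ℕ} {C : ℝ}
    {x : Pt b.C.O} (hx : x (b.C.z b.i0) ≠ 0) (h1 : ‖x (b.C.z b.i0)‖ ≤ 1) (hC : 1 ≤ C)
    (h2 : ‖x.ev (b.z ^ e / (η / b.J ^ k0))‖ ≤ C) :
    (‖x (b.C.z b.i0)‖ ^ e / C) ^ 2 ≤
      ‖x.ev (Jac b.C.der fun i => (B.z i : K))‖ ^ 2 * B.dn η k0 (b.τ.map x) := by
  have s := same b hx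
  have r1 : x.Reg (Jac b.C.der fun i => (B.z i : K)) :=
    b.C.cvEv.reg_jac fun i => (b.τ.map_apply (tau_ne b hx) _).1
  have r2 : x.Reg b.J := (s _).1.2 (B.toCht.cvEv.reg_jac fun i => (s _).1.1 (x.reg_coe _))
  have j := (x.ev_mul r1 r2).2
  rw [Bdy.J, ← B.toCht.dual.jac_chain, b.C.dual.jac_one, x.ev_one, ← Bdy.J] at j
  have j0 : x.ev b.J ≠ 0 := fun h => by rw [h, mul_zero] at j; exact one_ne_zero j
  have r3 : x.Reg η := (s _).1.2 ((b.τ.map x).reg_of_mem hB.mem)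
  have n3 : x.ev η ≠ 0 := by rw [(s _).2]; exact hB.ne _
  have r4 := x.ev_pow r2 k0
  have r5 := x.ev_div r3 r4.1 (by rw [r4.2]; exact pow_ne_zero _ j0)
  have r6 := x.ev_pow (x.reg_coe (b.C.z b.i0)) e
  have r7 := x.ev_div r6.1 r5.1 (by rw [r5.2, r4.2]; exact div_ne_zero n3 (pow_ne_zero _ j0))
  have p : 0 < ‖x.ev η‖ / ‖x.ev b.J‖ ^ k0 := div_pos (norm_pos_iff.2 n3) (by positivity)
  rw [Bdy.z, r7.2, r6.2, r5.2, r4.2, x.ev_coe, norm_div, norm_div, norm_pow, norm_pow,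
    div_le_iff₀' p, ← div_le_iff₀ (by linarith)] at h2
  have k : (k0 : ℝ) ≠ 0 := by exact_mod_cast hB.pos.ne'
  rw [← Real.rpow_two]
  refine (Real.rpow_le_rpow_of_exponent_ge (by positivity) ((div_le_one (by linarith)).2
    ((pow_le_one₀ (norm_nonneg _) h1).trans hC)) (exp_le hB)).trans
    ((Real.rpow_le_rpow (by positivity) h2 (by positivity)).trans_eq ?_)
  rw [FCht.dn, ← (s _).2, eq_inv_of_mul_eq_one_left j.symm, Real.div_rpow (norm_nonneg _)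
    (by positivity), ← Real.rpow_natCast, ← Real.rpow_mul (norm_nonneg _), mul_div_cancel₀ _ k,
    Real.rpow_two, norm_inv, inv_pow, div_eq_inv_mul]

/-- integrability in the chart at the divisor -/
theorem loc_int (hB : Base B η k0) (L : Lin B Dn ν) (F : Prof B η k0 Dn ν c) (P : PD K) (t : ℕ)
    {G : Pt B.O → ENNReal} (hG : Measurable G)
    (hi : ∫⁻ p, G p * ENNReal.ofReal (Dn p ^ t * B.dn η k0 p) ∂B.D.μ < ⊤) :
    ∀ᶠ c0 in (F.bd P).gen, ∀ W ∈ 𝓝 c0, ∃ r > 0, (∀ y ∈ ball ((F.bd P).C.D.π c0) r,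
      y ∈ ((F.bd P).C.D.ch c0).target ∧ (F.bd P).C.D.sec c0 y ∈ W) ∧
      ∫⁻ y in ball ((F.bd P).C.D.π c0) r ∩ {y | y (F.bd P).i0 ≠ 0},
        ENNReal.ofReal (‖y (F.bd P).i0 ^ (F.al P * t + F.e P)‖ ^ 2) *
          G ((F.bd P).τ.map ((F.bd P).C.D.sec c0 y)) < ⊤ := by
  have he := F.he P
  have lo := F.lo P
  set b := F.bd P
  have hψ : b.z ^ F.e P / (η / b.J ^ k0) ∈ P.1 := by
    rw [← P.1.valuation_le_one_iff, map_div₀, map_pow, he]
    exact div_self_le_one _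
  filter_upwards [lo, gen_reg b hψ, gen_z b] with c0 ⟨κ, κ0, h1⟩ h2 h3 W hW
  set C := ‖c0.ev (b.z ^ F.e P / (η / b.J ^ k0))‖ + 1
  have C1 : 1 ≤ C := le_add_of_nonneg_left (norm_nonneg _)
  obtain ⟨r, r0, hr⟩ := b.C.D.exists_rad c0 (inter_mem (inter_mem hW
    (eventually_nhdsWithin_iff.1 (eventually_map.1 h1))) (inter_mem
    (h2.continuousAt.norm.eventually (gt_mem_nhds (lt_add_one _)))
    ((Pt.continuous_apply (b.C.z b.i0)).norm.continuousAt.eventually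
      (gt_mem_nhds (show ‖c0 (b.C.z b.i0)‖ < 1 by rw [h3]; simp)))))
  have hb := fun y (hy : y ∈ ball (b.C.D.π c0) r) => hr (ball_subset_closedBall hy)
  refine ⟨r, r0, fun y hy => ⟨(hb y hy).1, (hb y hy).2.1.1⟩, ?_⟩
  have O := isOpen_punct b.i0 (b.C.D.π c0) r
  have o := (b.C.D.ch c0).open_source.inter (O.preimage b.C.D.cont_π)
  rw [b.C.cv B.toCht b.τ (hG.fun_mul (wt_cont hB L t).measurable.ennreal_ofReal)] at hi
  have h := (lintegral_mono_set (s := (b.C.D.ch c0).source ∩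
    b.C.D.π ⁻¹' (ball (b.C.D.π c0) r ∩ {y | y b.i0 ≠ 0})) fun x hx =>
      tau_ne b (by rw [← b.C.π_eq]; exact hx.2.2)).trans_lt hi
  rw [RArea.lint_sec b.C.D c0 o.measurableSet inter_subset_left, image_inter_preimage,
    inter_eq_right.2 fun y hy => (mem_image _ _ _).2
      ⟨_, RD.sec_mem (hb y hy.1).1, RD.π_sec (hb y hy.1).1⟩] at h
  refine ENNReal.lt_top_of_mul_ne_top_right (a := ENNReal.ofReal (κ ^ t / C ^ 2)) (ne_of_lt ?_)
    (by simpa using by positivity)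
  rw [← lintegral_const_mul' _ _ ENNReal.ofReal_ne_top]
  refine lt_of_le_of_lt (setLIntegral_mono' O.measurableSet fun y hy => ?_) h
  obtain ⟨a1, ⟨-, a2⟩, a3, a4⟩ := hb y hy.1
  have z := sec_z b a1
  have z0 : b.C.D.sec c0 y (b.C.z b.i0) ≠ 0 := by rw [z]; exact hy.2
  have d1 := dn_ge hB b z0 (le_of_lt a4) C1 (le_of_lt a3)
  have d2 := pow_le_pow_left₀ (by positivity) (a2 z0) t
  rw [ev_z b z0, z] at d2
  rw [z] at d1
  have y0 : 0 < ‖y b.i0‖ := norm_pos_iff.2 hy.2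
  rw [← mul_assoc, mul_comm (G _), ← mul_assoc, ← ENNReal.ofReal_mul (by positivity),
    ← ENNReal.ofReal_mul (by positivity)]
  refine mul_le_mul_left (ENNReal.ofReal_le_ofReal ?_) _
  rw [mul_left_comm]
  refine le_trans (le_of_eq ?_) (mul_le_mul d2 d1 (by positivity) (pow_pos (L.pos _) t).le)
  rw [norm_zpow, zpow_add₀ y0.ne', zpow_natCast, zpow_mul, zpow_natCast, mul_comm 2, zpow_mul,
    zpow_ofNat]
  ring_nf

end Bg

open Bg

variable {δ K : Type} [Fintype δ] [DecidableEq δ] [Field K] [Algebra ℂ K] {B : FCht δ K} {η : K}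
  {k0 : ℕ} {Dn : Pt B.O → ℝ} {ν : ℕ} {Γ : Type} [Group Γ] {c : G.Coc (Pt B.O) Γ}

/-- power sums are regular sections -/
theorem Peak.sec (hB : Base B η k0) (L : Lin B Dn ν) (Pk : Peak B η k0 Dn c)
    (F : Prof B η k0 Dn ν c) {u : G.Cv c → ℂ} (hu : Pk.Dh.Hol u)
    (hi : ∫⁻ x, ENNReal.ofReal (‖u x‖ ^ 2 * Dn x.y ^ Pk.t * B.dn η k0 x.y) ∂Pk.Dh.μ < ⊤)
    {j : ℕ} (hj : 2 ≤ j) : ∃ (A : ℕ) (g : K), F.Sec A g (j * Pk.t) ∧
      ∀ p : Pt B.O, p.ev g = Bg.psum G.Cv.y u j p := by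
  have := Pk.cnt
  simp only [mul_assoc] at hi
  have hp := G.Cv.isCoveringMap (c := c)
  have hπ : ∀ x : G.Cv c, B.D.π x.y = Pk.Dh.π x := fun x => (Pk.rm.eq x).symm
  have wc := wt_cont hB L Pk.t
  have w0 := wt_pos hB L Pk.t
  obtain ⟨φ, hφ⟩ := psum_elt hB L hp hπ hu hi hj
  have e : esum G.Cv.y u = fun y => ENNReal.ofReal (nsum G.Cv.y u y) :=
    funext fun y => (ofReal_nsum hp hπ wc w0 hu hi y).symm
  have key := fun P => loc_int hB L F P Pk.t (G := esum G.Cv.y u)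
    (e ▸ (nsum_cont hp hπ wc w0 hu hi).measurable.ennreal_ofReal)
    (lintegral_l2 hp hπ wc hu ▸ hi)
  refine ⟨j * (Fintype.card δ + 1), φ, ⟨φ.2, fun P hP h0 => ?_, fun P => ?_⟩,
    fun p => (p.ev_coe φ).trans (hφ p)⟩
  · refine ge_of_bound _ φ.2 ?_
    filter_upwards [key P, F.triv P hP, gen_z (F.bd P)] with c0 h1 ⟨W, hW, k, hk⟩ h3
    obtain ⟨r, r0, h4, h5⟩ := h1 W hW
    obtain ⟨C, hC⟩ := horn_good (Γ := Γ) hπ hu (by rw [(F.bd P).C.π_eq, h3])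
      (fun y hy => (hm_diff _ (h4 y hy.1).1 hy.2).differentiableWithinAt) h5
      (σ := fun γ y => ⟨(F.bd P).τ.map ((F.bd P).C.D.sec c0 y), γ * k ((F.bd P).C.D.sec c0 y)⟩)
      (fun γ y hy => ContinuousAt.continuousWithinAt (G.Cv.tendsto_iff.2
        ⟨hm_cont _ (h4 y hy.1).1 hy.2, ((RD.sec_contAt (h4 y hy.1).1).eventually
          (hk _ (h4 y hy.1).2 (by rw [sec_z _ (h4 y hy.1).1]; exact hy.2))).mono fun y' h => by
            simp only [h, mul_assoc]⟩))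
      (fun y _ => ⟨fun _ => rfl, fun γ γ' h => mul_right_cancel (congrArg G.Cv.g h),
        fun x hx => ⟨x.g * (k ((F.bd P).C.D.sec c0 y))⁻¹, G.Cv.ext hx.symm (by simp)⟩⟩) hj
    refine ⟨C, ev_near _ (half_pos r0) (Q := fun x z => ‖((F.bd P).τ.map x).ev φ‖ ≤ C * ‖z‖ ^ _)
      fun y hy => ?_⟩
    rw [Pt.ev_coe, hφ]
    refine (hC y hy).trans_eq ?_
    congr 2
    rw [h0]
    push_cast
    ring
  · refine ge_mono _ (ge_of_bound _ φ.2
      (n := -((F.al P * Pk.t + F.e P + Fintype.card δ) * j)) ?_) ?_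
    · filter_upwards [key P, gen_z (F.bd P)] with c0 h1 h3
      obtain ⟨r, r0, h4, h5⟩ := h1 univ univ_mem
      obtain ⟨C, hC⟩ := horn_all hp hπ hu (by rw [(F.bd P).C.π_eq, h3])
        (fun y hy => (hm_cont _ (h4 y hy.1).1 hy.2).continuousWithinAt)
        (fun y hy => (hm_diff _ (h4 y hy.1).1 hy.2).differentiableWithinAt) h5 hj
      refine ⟨C, ev_near _ (half_pos r0) (Q := fun x z => ‖((F.bd P).τ.map x).ev φ‖ ≤ C * ‖z‖ ^ _)
        fun y hy => ?_⟩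
      rw [Pt.ev_coe, hφ]
      exact hC y hy
    · push_cast
      have : (0 : ℤ) ≤ j * (Fintype.card δ * F.e P + 1) := by positivity
      linarith

end Pool.Agent.Lib.MP_5c318e_ag
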