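import Pool.Agent.Lib.MP_5c318e_ag.Bg.Push
import Pool.Agent.Lib.MP_9ff3e7_ag.F.Riem

/-! The mean value inequality for fibre sums; square integrable functions off a hyperplane. -/

set_option autoImplicit false
set_option linter.unusedSectionVars false

namespace Pool.Agent.Lib.MP_5c318e_ag.Bg

open MeasureTheory Metric Filter Topology Set Function
open Pool.Agent.Lib.MP_9ff3e7_ag

noncomputable section

section one

theorem submean1 {φ : ℂ → ℂ} {c : ℂ} {r : ℝ} (hr : 0 < r) (h : DifferentiableOn ℂ φ (ball c r)) :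
    ENNReal.ofReal (‖φ c‖ ^ 2 * (Real.pi * r ^ 2)) ≤
      ∫⁻ t in ball c r, ENNReal.ofReal (‖φ t‖ ^ 2) := by
  have e : ball (fun _ : Unit => c) r = MeasurableEquiv.funUnique Unit ℂ ⁻¹' ball c r := by
    ext w
    simp [dist_pi_lt_iff hr, Unique.forall_iff]
  have := F.submean_pi (F := fun w : Unit → ℂ => φ (w ())) (x := fun _ => c) hr
    (h.comp (by fun_prop) fun w hw => by rw [e] at hw; exact hw)
  rw [← (volume_preserving_funUnique Unit ℂ).setLIntegral_comp_preimage_emb
    (MeasurableEquiv.measurableEmbedding _), ← e]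
  simpa using this

/-- the maximum principle across a square integrable singularity -/
theorem punct1 {φ : ℂ → ℂ} {c : ℂ} {ρ M : ℝ} (h0 : 0 < ρ)
    (hd : DifferentiableOn ℂ φ (closedBall c ρ \ {c}))
    (hi : ∫⁻ t in ball c ρ, ENNReal.ofReal (‖φ t‖ ^ 2) < ⊤) (hM : ∀ t ∈ sphere c ρ, ‖φ t‖ ≤ M)
    {t : ℂ} (ht : t ∈ closedBall c ρ) (hc : t ≠ c) : ‖φ t‖ ≤ M := by
  have n0 : Tendsto (fun t : ℂ => ‖t - c‖) (𝓝[≠] c) (𝓝 0) :=
    (Continuous.tendsto' (by fun_prop) c 0 (by simp)).mono_left nhdsWithin_le_nhds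
  have l1 := tendsto_setLIntegral_zero hi.ne (l := 𝓝[≠] c) (s := fun t => ball t ‖t - c‖) (by
    refine tendsto_of_tendsto_of_tendsto_of_le_of_le tendsto_const_nhds
      (h := fun t => ENNReal.ofReal ‖t - c‖ ^ 2 * NNReal.pi) ?_ (fun _ => zero_le) fun t => ?_
    · have := ENNReal.Tendsto.mul_const (b := NNReal.pi)
        (((ENNReal.continuous_pow 2).tendsto _).comp (ENNReal.tendsto_ofReal n0))
        (Or.inr ENNReal.coe_ne_top)
      simpa using this
    · exact (Measure.restrict_apply_le _ _).trans_eq (Complex.volume_ball _ _))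
  have l2 : Tendsto (fun t => ENNReal.ofReal (‖φ t‖ ^ 2 * (Real.pi * ‖t - c‖ ^ 2))) (𝓝[≠] c)
      (𝓝 0) := by
    refine tendsto_of_tendsto_of_tendsto_of_le_of_le' tendsto_const_nhds l1
      (.of_forall fun _ => zero_le) ?_
    filter_upwards [self_mem_nhdsWithin, n0.eventually (gt_mem_nhds (half_pos h0))] with t h1 h2
    have s : ball t ‖t - c‖ ⊆ ball c ρ := ball_subset_ball' (by rw [dist_eq_norm]; linarith)
    rw [Measure.restrict_restrict measurableSet_ball, inter_eq_left.2 s]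
    refine submean1 (norm_pos_iff.2 (sub_ne_zero.2 h1)) (hd.mono fun y hy =>
      ⟨ball_subset_closedBall (s hy), ?_⟩)
    rintro rfl
    rw [mem_ball, dist_comm, dist_eq_norm] at hy
    exact lt_irrefl _ hy
  have l3 : Tendsto (fun t => φ t * (t - c)) (𝓝[≠] c) (𝓝 0) := by
    have a := (ENNReal.tendsto_toReal ENNReal.zero_ne_top).comp l2
    have b := (a.div_const Real.pi).sqrt
    rw [tendsto_zero_iff_norm_tendsto_zero]
    simp only [ENNReal.toReal_zero, zero_div, Real.sqrt_zero] at b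
    refine b.congr fun t => ?_
    rw [Function.comp, ENNReal.toReal_ofReal (by positivity), norm_mul,
      ← Real.sqrt_sq (x := ‖φ t‖ * ‖t - c‖) (by positivity)]
    congr 1
    field_simp
  have d := Complex.differentiableOn_update_limUnder_of_isLittleO (closedBall_mem_nhds c h0) hd (by
    refine Asymptotics.isLittleO_of_tendsto' ?_ ?_
    · filter_upwards [self_mem_nhdsWithin] with t h1 h2
      exact absurd (sub_eq_zero.1 (inv_eq_zero.1 h2)) h1
    · have := l3.sub ((tendsto_zero_iff_norm_tendsto_zero.2 n0).const_mul (φ c))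
      simp only [mul_zero, sub_zero] at this
      refine this.congr fun t => ?_
      rw [div_inv_eq_mul, sub_mul])
  have := Complex.norm_le_of_forall_mem_frontier_norm_le (U := ball c ρ) isBounded_ball
    (d.diffContOnCl_ball le_rfl) (C := M) (z := t) (fun z hz => by
      rw [frontier_ball c h0.ne'] at hz
      rw [update_of_ne (ne_of_mem_sphere hz h0.ne')]
      exact hM z hz) (by rwa [closure_ball c h0.ne'])
  rwa [update_of_ne hc] at this

end one

variable {ι : Type} [Fintype ι] [DecidableEq ι]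

theorem isOpen_punct (i0 : ι) (a : ι → ℂ) (r : ℝ) : IsOpen (ball a r ∩ {z : ι → ℂ | z i0 ≠ 0}) :=
  isOpen_ball.inter (isOpen_ne_fun (continuous_apply i0) continuous_const)

/-- the sup bound on the half polydisc holds off a hyperplane through the centre -/
theorem punct_sup {i0 : ι} {a : ι → ℂ} (ha : a i0 = 0) {r J : ℝ} (hJ : 0 ≤ J) {g : (ι → ℂ) → ℂ}
    (hg : DifferentiableOn ℂ g (ball a r ∩ {z | z i0 ≠ 0}))
    (hi : ∫⁻ y in ball a r ∩ {z | z i0 ≠ 0}, ENNReal.ofReal (‖g y‖ ^ 2) ≤ ENNReal.ofReal J)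
    {z : ι → ℂ} (hz : z ∈ ball a (r / 2) ∩ {z | z i0 ≠ 0}) :
    ‖g z‖ ≤ √(J / (Real.pi * (r / 2) ^ 2) ^ Fintype.card ι) := by
  have r2 := pos_of_mem_ball hz.1
  have r0 : 0 < r := by linarith
  have rc : (r : ℂ) ≠ 0 := by exact_mod_cast r0.ne'
  set M := √(J / (Real.pi * (r / 2) ^ 2) ^ Fintype.card ι)
  have O := isOpen_punct i0 a r
  have sb : ball a (r / 2) ∩ {z | z i0 ≠ 0} ⊆ ball a r ∩ {z | z i0 ≠ 0} :=
    inter_subset_inter_left _ (ball_subset_ball (half_le_self r0.le))
  have gm := F.Riem.meas_ind O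
    (ENNReal.continuous_ofReal.comp_continuousOn (hg.continuousOn.norm.pow 2))
  have key : EqOn (fun y => max ‖g y‖ M) (fun _ => M) (ball a (r / 2) ∩ {z | z i0 ≠ 0}) := by
    refine Measure.eqOn_open_of_ae_eq (μ := volume) ?_ (isOpen_punct i0 a _)
      ((hg.continuousOn.mono sb).norm.sup continuousOn_const) continuousOn_const
    filter_upwards [ae_restrict_of_ae (F.Riem.ae_slice gm (by
      rw [lintegral_indicator O.measurableSet]
      exact hi.trans_lt ENNReal.ofReal_lt_top) (Pi.single i0 (r : ℂ))),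
      ae_restrict_mem (isOpen_punct i0 a _).measurableSet] with y h1 hy
    have co : ∀ t : ℂ, (y + t • (Pi.single i0 (r : ℂ) : ι → ℂ)) i0 = r * (t - -y i0 / r) :=
      fun t => by simp only [Pi.add_apply, Pi.smul_apply, Pi.single_eq_same, smul_eq_mul]; field_simp; ring
    have nr : ∀ t : ℂ, ‖(y + t • (Pi.single i0 (r : ℂ) : ι → ℂ)) i0‖ = r * dist t (-y i0 / r) :=
      fun t => by rw [co, norm_mul, Complex.norm_real, Real.norm_of_nonneg r0.le, dist_eq_norm]
    have y0 : dist (0 : ℂ) (-y i0 / r) < 1 / 2 := by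
      have := (dist_pi_lt_iff r2).1 hy.1 i0
      rw [ha, dist_zero_right] at this
      have h2 := nr 0
      simp only [zero_smul, add_zero] at h2
      nlinarith
    have m : ∀ t ∈ closedBall (-y i0 / r) (1 / 2),
        y + t • (Pi.single i0 (r : ℂ) : ι → ℂ) ∈ closedBall a (r / 2) := fun t ht =>
      (dist_pi_le_iff r2.le).2 fun i => by
        rcases eq_or_ne i i0 with rfl | hi
        · rw [ha, dist_zero_right, nr]
          nlinarith [mem_closedBall.1 ht]
        · simpa [Pi.single_eq_of_ne hi] using ((dist_pi_lt_iff r2).1 hy.1 i).le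
    have m' : ∀ t ∈ closedBall (-y i0 / r) (1 / 2) \ {-y i0 / r},
        y + t • (Pi.single i0 (r : ℂ) : ι → ℂ) ∈ ball a r ∩ {z | z i0 ≠ 0} := fun t ht =>
      ⟨closedBall_subset_ball (half_lt_self r0) (m t ht.1), by
        rw [mem_ofPred, co]
        exact mul_ne_zero rc (sub_ne_zero.2 ht.2)⟩
    have := punct1 (φ := fun t => g (y + t • (Pi.single i0 (r : ℂ) : ι → ℂ))) (c := -y i0 / r)
      (M := M) one_half_pos (hg.comp (by fun_prop) m') (lt_of_le_of_lt ?_ h1) (fun t ht => ?_)
      (t := 0) y0.le (Ne.symm (div_ne_zero (neg_ne_zero.2 hy.2) rc))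
    · simpa using this
    · refine le_trans (lintegral_mono_ae ?_) (lintegral_mono_set
        (ball_subset_ball' (by rw [dist_comm]; linarith)))
      filter_upwards [ae_restrict_mem measurableSet_ball,
        ae_restrict_of_ae (compl_mem_ae_iff.2 (measure_singleton (-y i0 / r)))] with t a b
      rw [indicator_of_mem (m' t ⟨ball_subset_closedBall a, b⟩)]
      exact le_rfl
    · refine F.norm_le_l2 r2 hJ hg (fun w hw => ⟨ball_subset_ball' ?_ hw, fun h => ?_⟩) hi
      · linarith [mem_closedBall.1 (m t (sphere_subset_closedBall ht))]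
      · have := (dist_pi_lt_iff r2).1 hw i0
        rw [h, dist_zero_left, nr, mem_sphere.1 ht] at this
        linarith
  exact (le_max_left _ _).trans_eq (key hz)

/-- a family of finite total mass off a hyperplane is dominated on the half polydisc -/
theorem punct_fam {κ : Type} [Countable κ] {i0 : ι} {a : ι → ℂ} (ha : a i0 = 0) {r : ℝ}
    {f : κ → (ι → ℂ) → ℂ} (hf : ∀ k, DifferentiableOn ℂ (f k) (ball a r ∩ {z | z i0 ≠ 0}))
    (hi : ∫⁻ z in ball a r ∩ {z | z i0 ≠ 0}, ∑' k, ENNReal.ofReal (‖f k z‖ ^ 2) < ⊤) :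
    ∃ I : κ → ℝ, Summable I ∧ ∀ k, ∀ z ∈ ball a (r / 2) ∩ {z | z i0 ≠ 0}, ‖f k z‖ ^ 2 ≤ I k := by
  rw [lintegral_tsum (f := fun k z => ENNReal.ofReal (‖f k z‖ ^ 2)) fun k =>
    (((hf k).continuousOn.norm.pow 2).aemeasurable
      (isOpen_punct i0 a r).measurableSet).ennreal_ofReal] at hi
  refine ⟨_, (ENNReal.summable_toReal hi.ne).div_const
    ((Real.pi * (r / 2) ^ 2) ^ Fintype.card ι), fun k z hz => ?_⟩
  exact (Real.le_sqrt (norm_nonneg _) (by positivity)).1 (punct_sup ha ENNReal.toReal_nonneg (hf k)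
    (ENNReal.ofReal_toReal (ENNReal.ne_top_of_tsum_ne_top hi.ne k)).ge hz)

variable {S1 S : Type} [TopologicalSpace S1] [TopologicalSpace S] {p : S1 → S}

/-- all lifts of a map defined on a ball -/
theorem exists_lifts {E : Type} [NormedAddCommGroup E] [NormedSpace ℝ E] (hp : IsCoveringMap p)
    {τ : E → S} {a : E} {r : ℝ} (r0 : 0 < r) (hc : ContinuousOn τ (ball a r)) :
    ∃ σ : p ⁻¹' {τ a} → E → S1, (∀ k, σ k a = k) ∧ (∀ k, ContinuousOn (σ k) (ball a r)) ∧
      (∀ k, ∀ z ∈ ball a r, p (σ k z) = τ z) ∧ ∀ z ∈ ball a r, Injective (σ · z) := by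
  classical
  have := (convex_ball a r).contractibleSpace ⟨a, mem_ball_self r0⟩
  have := (isOpen_ball (x := a) (ε := r)).locallyPathConnectedSpace
  choose G hG using fun k : p ⁻¹' {τ a} => (hp.existsUnique_continuousMap_lifts
    (⟨_, continuousOn_iff_continuous_domRestrict.1 hc⟩ : C(ball a r, S)) ⟨a, mem_ball_self r0⟩
    k k.2).exists
  refine ⟨fun k z => if h : z ∈ ball a r then G k ⟨z, h⟩ else k, fun k => ?_, fun k => ?_,
    fun k z hz => ?_, fun z hz k l e => Subtype.ext ?_⟩
  · simp only [dif_pos (mem_ball_self r0), (hG k).1]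
  · rw [continuousOn_iff_continuous_domRestrict]
    exact (G k).continuous.congr fun b => by simp only [domRestrict_apply, dif_pos b.2]
  · simp only [dif_pos hz]
    exact congrFun (hG k).2 ⟨z, hz⟩
  · simp only [dif_pos hz] at e
    rw [← (hG k).1, ← (hG l).1, hp.eq_of_comp_eq (G k).continuous (G l).continuous
      ((hG k).2.trans (hG l).2.symm) _ e]

variable [MeasurableSpace S1] [MeasurableSpace S] {D1 : RD ι S1} {D : RD ι S}

theorem hol_map {E G : Type} [NormedAddCommGroup E] [NormedSpace ℂ E] [NormedAddCommGroup G]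
    [NormedSpace ℂ G] {u : S1 → G} (hu : D1.Hol u) {σ : E → S1} {z : E} (hc : ContinuousAt σ z)
    (hd : DifferentiableAt ℂ (fun y => D1.π (σ y)) z) : DifferentiableAt ℂ (fun y => u (σ y)) z :=
  (DifferentiableAt.comp (g := fun y => u (D1.sec (σ z) y)) z (hu _) hd).congr_of_eventuallyEq (by
    filter_upwards [hc.eventually ((D1.ch _).open_source.mem_nhds (D1.mem_src _))] with y hy
    simp only [Function.comp, RD.sec_π hy])

/-- the fibre sum of `|u| ^ 2` -/
def esum (p : S1 → S) (u : S1 → ℂ) (y : S) : ENNReal :=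
  ∑' x : p ⁻¹' {y}, ENNReal.ofReal (‖u x‖ ^ 2)

/-- the mean value inequality for fibre sums along a holomorphic map -/
theorem submean_esum [SigmaCompactSpace S1] [T1Space S] (hp : IsCoveringMap p)
    (hπ : ∀ x, D.π (p x) = D1.π x) {u : S1 → ℂ} (hu : D1.Hol u) {κ : Type} [Fintype κ]
    {τ : (κ → ℂ) → S} {a : κ → ℂ} {r : ℝ} (r0 : 0 < r) (hc : ContinuousOn τ (ball a r))
    (hd : DifferentiableOn ℂ (fun z => D.π (τ z)) (ball a r)) :
    esum p u (τ a) * ENNReal.ofReal ((Real.pi * r ^ 2) ^ Fintype.card κ) ≤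
      ∫⁻ z in ball a r, esum p u (τ z) := by
  have := fib_countable hp (τ a)
  obtain ⟨σ, s1, s2, s3, s4⟩ := exists_lifts hp r0 hc
  have d : ∀ k, DifferentiableOn ℂ (fun z => u (σ k z)) (ball a r) := fun k z hz =>
    (hol_map hu ((s2 k).continuousAt (isOpen_ball.mem_nhds hz))
      ((hd.congr fun y hy => by rw [← hπ, s3 k y hy]).differentiableAt
        (isOpen_ball.mem_nhds hz))).differentiableWithinAt
  calc _ ≤ ∑' k, ∫⁻ z in ball a r, ENNReal.ofReal (‖u (σ k z)‖ ^ 2) := by
        rw [esum, ← ENNReal.tsum_mul_right]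
        refine ENNReal.tsum_le_tsum fun k => ?_
        have := F.submean_pi r0 (d k)
        rwa [s1, ENNReal.ofReal_mul (sq_nonneg _)] at this
    _ = ∫⁻ z in ball a r, ∑' k, ENNReal.ofReal (‖u (σ k z)‖ ^ 2) :=
        (lintegral_tsum fun k => (((d k).continuousOn.norm.pow 2).aemeasurable
          measurableSet_ball).ennreal_ofReal).symm
    _ ≤ _ := setLIntegral_mono' measurableSet_ball fun z hz =>
        ENNReal.tsum_comp_le_tsum_of_injective
          (f := fun k => (⟨σ k z, s3 k z hz⟩ : p ⁻¹' {τ z}))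
          (fun k l e => s4 z hz (congrArg Subtype.val e)) fun x => ENNReal.ofReal (‖u x‖ ^ 2)

end

end Pool.Agent.Lib.MP_5c318e_ag.Bg
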